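import Pool.Agent.Lib.MP_629a14_nt.Mn.Mann

/-! Mann's theorem for profiles: densities on cells. -/

set_option autoImplicit false

namespace Pool.Agent.Lib.MP_629a14_nt.Mn

open Finset

/-- block coding of a profile -/
noncomputable def blk (K M : ℕ) (s : ℕ → ℕ) : Finset ℕ :=
  insert 0 ((range K).biUnion fun i => (Icc 1 (s i)).image fun t => i * M + t)

theorem mem_blk {K M : ℕ} {s : ℕ → ℕ} {n : ℕ} :
    n ∈ blk K M s ↔ n = 0 ∨ ∃ i < K, ∃ t, 1 ≤ t ∧ t ≤ s i ∧ n = i * M + t := by
  unfold blk
  simp only [mem_insert, mem_biUnion, mem_range, mem_image, mem_Icc]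
  constructor
  · rintro (h | ⟨i, hi, t, ⟨h1, h2⟩, rfl⟩)
    · exact Or.inl h
    · exact Or.inr ⟨i, hi, t, h1, h2, rfl⟩
  · rintro (h | ⟨i, hi, t, h1, h2, rfl⟩)
    · exact Or.inl h
    · exact Or.inr ⟨i, hi, t, ⟨h1, h2⟩, rfl⟩

private theorem code_inj {M i i' t t' : ℕ} (h1 : 1 ≤ t) (h2 : t ≤ M) (h1' : 1 ≤ t') (h2' : t' ≤ M)
    (h : i * M + t = i' * M + t') : i = i' ∧ t = t' := by
  have hM : 0 < M := by omega
  have e : i = i' := by
    rcases Nat.lt_trichotomy i i' with hi | hi | hi
    · have : (i + 1) * M ≤ i' * M := Nat.mul_le_mul_right M hi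
      nlinarith
    · exact hi
    · have : (i' + 1) * M ≤ i * M := Nat.mul_le_mul_right M hi
      nlinarith
  subst e
  exact ⟨rfl, by omega⟩

theorem cnt_blk {K M k t : ℕ} {s : ℕ → ℕ} (hs : ∀ i, s i ≤ M) (hk : k < K) (ht : t ≤ M) :
    ∑ i ∈ range k, s i + min t (s k) ≤ cnt (blk K M s) (k * M + t) := by
  classical
  have h1 : ∑ i ∈ range k, s i + min t (s k) =
      ((range (k + 1)).sigma fun i => Icc 1 (if i < k then s i else min t (s k))).card := by
    rw [card_sigma, sum_range_succ]
    congr 1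
    · apply sum_congr rfl
      intro i hi
      rw [mem_range] at hi
      simp [hi]
    · simp
  rw [h1]
  unfold cnt
  apply card_le_card_of_injOn (fun p => p.1 * M + p.2)
  · rintro ⟨i, u⟩ hp
    simp only [coe_sigma, Set.mem_sigma_iff, coe_range, Set.mem_Iio, coe_Icc, Set.mem_Icc,
      mem_coe, mem_filter] at hp ⊢
    obtain ⟨hi, hu1, hu2⟩ := hp
    refine ⟨mem_blk.2 (Or.inr ⟨i, by omega, u, hu1, ?_, rfl⟩), by omega, ?_⟩
    · split_ifs at hu2 with h
      · exact hu2
      · have : i = k := by omega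
        subst this
        exact le_trans hu2 (min_le_right _ _)
    · split_ifs at hu2 with h
      · have h3 : u ≤ M := le_trans hu2 (hs i)
        have h4 : (i + 1) * M ≤ k * M := Nat.mul_le_mul_right M h
        nlinarith
      · have : i = k := by omega
        subst this
        have := le_trans hu2 (min_le_left _ _)
        omega
  · rintro ⟨i, u⟩ hp ⟨i', u'⟩ hp' h
    simp only [coe_sigma, Set.mem_sigma_iff, coe_range, Set.mem_Iio, coe_Icc, Set.mem_Icc] at hp hp' h
    have hb : ∀ i u : ℕ, (u ≤ if i < k then s i else min t (s k)) → u ≤ M := by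
      intro i u h
      split_ifs at h with h'
      · exact le_trans h (hs i)
      · exact le_trans h (le_trans (min_le_right _ _) (hs k))
    obtain ⟨e1, e2⟩ := code_inj hp.2.1 (hb i u hp.2.2) hp'.2.1 (hb i' u' hp'.2.2) h
    subst e1
    subst e2
    rfl

/-- lower bound for the counting function of the block set of a profile -/
theorem cnt_blk_ge {K M : ℕ} (hM : 1 ≤ M) {a : ℝ} {α : ℕ → ℝ} (h0 : ∀ i, 0 ≤ α i)
    (h1 : ∀ i, α i ≤ 1) (h : ∀ m, m ≤ K → a * m ≤ ∑ i ∈ range m, α i) (m : ℕ) (hm : 1 ≤ m)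
    (hmK : m ≤ K * M) :
    (a - 1 / M) * m ≤ cnt (blk K M fun i => ⌊α i * M⌋₊) m := by
  have hMR : (0 : ℝ) < M := by exact_mod_cast hM
  obtain ⟨k, t, hk, ht1, ht2, rfl⟩ : ∃ k t, k < K ∧ 1 ≤ t ∧ t ≤ M ∧ m = k * M + t := by
    refine ⟨(m - 1) / M, (m - 1) % M + 1, ?_, by omega, ?_, ?_⟩
    · rw [Nat.div_lt_iff_lt_mul hM]
      omega
    · have := Nat.mod_lt (m - 1) hM
      omega
    · have := Nat.div_add_mod (m - 1) M
      rw [Nat.mul_comm] at this
      omega
  set s : ℕ → ℕ := fun i => ⌊α i * M⌋₊ with hs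
  have hsM : ∀ i, s i ≤ M := by
    intro i
    have h2 : α i * M ≤ M := by nlinarith [h1 i]
    calc s i = ⌊α i * M⌋₊ := rfl
      _ ≤ ⌊(M : ℝ)⌋₊ := Nat.floor_le_floor h2
      _ = M := Nat.floor_natCast M
  have hlow : ∀ i, α i * M - 1 ≤ s i := by
    intro i
    have := Nat.lt_floor_add_one (α i * M)
    simp only [hs]
    linarith
  have hsum : ∀ j, j ≤ K → (a * M - 1) * j ≤ ∑ i ∈ range j, (s i : ℝ) := by
    intro j hj
    have h2 := h j hj
    calc (a * M - 1) * j = (a * j) * M - j := by ring
      _ ≤ (∑ i ∈ range j, α i) * M - j := by nlinarith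
      _ = ∑ i ∈ range j, (α i * M - 1) := by
          rw [sum_sub_distrib, ← sum_mul]
          simp
      _ ≤ ∑ i ∈ range j, (s i : ℝ) := sum_le_sum fun i _ => hlow i
  have h3 := cnt_blk (K := K) hsM hk ht2
  have h4 : (∑ i ∈ range k, (s i : ℝ)) + min (t : ℝ) (s k) ≤ cnt (blk K M s) (k * M + t) := by
    exact_mod_cast h3
  refine le_trans ?_ h4
  have h5 := hsum k (by omega)
  have h6 := hsum (k + 1) (by omega)
  rw [sum_range_succ] at h6
  push_cast at h6
  have hskM : ((s k : ℕ) : ℝ) ≤ M := by exact_mod_cast hsM k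
  have htM : (t : ℝ) ≤ M := by exact_mod_cast ht2
  have ht0 : (0 : ℝ) ≤ t := Nat.cast_nonneg t
  have hs0 : (0 : ℝ) ≤ s k := Nat.cast_nonneg _
  have h7 : (t : ℝ) / M * s k ≤ min (t : ℝ) (s k) := by
    apply le_min
    · rw [div_mul_eq_mul_div, div_le_iff₀ hMR]
      nlinarith
    · have : (t : ℝ) / M ≤ 1 := by rw [div_le_one hMR]; exact htM
      nlinarith
  have hu0 : (0 : ℝ) ≤ t / M := by positivity
  have hu1 : (t : ℝ) / M ≤ 1 := by rw [div_le_one hMR]; exact htM
  have e1 : (a - 1 / M) * ((k * M + t : ℕ) : ℝ) = (a * M - 1) * (k + t / M) := by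
    push_cast
    field_simp
  rw [e1]
  set u : ℝ := t / M with hu
  set S : ℝ := ∑ i ∈ range k, (s i : ℝ)
  nlinarith [mul_nonneg hu0 (sub_nonneg.2 h6), mul_nonneg (sub_nonneg.2 hu1) (sub_nonneg.2 h5)]

/-- upper bound for the number of elements -/
theorem cnt_le_sum {K M : ℕ} (hM : 1 ≤ M) {γ : ℕ → ℝ} (hγ : ∀ k, 0 ≤ γ k) :
    (cnt ((range (K * M + 1)).filter fun n => n = 0 ∨
      (((n - 1) % M + 1 : ℕ) : ℝ) ≤ γ ((n - 1) / M) * M) (K * M) : ℝ) ≤
      M * ∑ k ∈ range K, γ k := by
  classical
  have hMR : (0 : ℝ) < M := by exact_mod_cast hM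
  have h1 : cnt ((range (K * M + 1)).filter fun n => n = 0 ∨
      (((n - 1) % M + 1 : ℕ) : ℝ) ≤ γ ((n - 1) / M) * M) (K * M) ≤
      ((range K).sigma fun k => Icc 1 ⌊γ k * M⌋₊).card := by
    unfold cnt
    apply card_le_card_of_injOn (fun n => (⟨(n - 1) / M, (n - 1) % M + 1⟩ : (_ : ℕ) × ℕ))
    · intro n hn
      simp only [coe_filter, mem_filter, mem_range, Set.mem_ofPred_eq] at hn
      obtain ⟨⟨h1, h2⟩, h3, h4⟩ := hn
      simp only [coe_sigma, Set.mem_sigma_iff, coe_range, Set.mem_Iio, coe_Icc, Set.mem_Icc]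
      refine ⟨?_, by omega, ?_⟩
      · rw [Nat.div_lt_iff_lt_mul hM]
        omega
      · rcases h2 with h2 | h2
        · omega
        · exact Nat.le_floor h2
    · intro n hn n' hn' h
      simp only [coe_filter, mem_filter, mem_range, Set.mem_ofPred_eq] at hn hn'
      simp only [Sigma.mk.injEq, heq_eq_eq] at h
      have e1 := Nat.div_add_mod (n - 1) M
      have e2 := Nat.div_add_mod (n' - 1) M
      rw [h.1] at e1
      omega
  have h2 : ((((range K).sigma fun k => Icc 1 ⌊γ k * M⌋₊).card : ℕ) : ℝ) ≤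
      M * ∑ k ∈ range K, γ k := by
    rw [card_sigma]
    push_cast
    rw [mul_sum]
    apply sum_le_sum
    intro k _
    rw [Nat.card_Icc]
    have h3 := Nat.floor_le (mul_nonneg (hγ k) hMR.le)
    simp only [Nat.add_sub_cancel]
    linarith
  exact le_trans (by exact_mod_cast h1) h2

/-- **Mann's theorem for profiles.** -/
theorem mann_cells {K : ℕ} {a b : ℝ} (ha : 0 < a) (hb : 0 < b) {α β γ : ℕ → ℝ}
    (hα0 : ∀ i, 0 ≤ α i) (hα1 : ∀ i, α i ≤ 1) (hβ0 : ∀ i, 0 ≤ β i) (hβ1 : ∀ i, β i ≤ 1)
    (hγ0 : ∀ k, 0 ≤ γ k)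
    (hα : ∀ m, m ≤ K → a * m ≤ ∑ i ∈ range m, α i)
    (hβ : ∀ m, m ≤ K → b * m ≤ ∑ i ∈ range m, β i)
    (h0 : ∀ i j, 0 < α i → 0 < β j → i + j < K → min 1 (α i + β j) ≤ γ (i + j))
    (h1 : ∀ i j, 0 < α i → 0 < β j → i + j + 1 < K → min 1 (α i + β j) ≤ γ (i + j + 1)) :
    min 1 (a + b) * K ≤ ∑ k ∈ range K, γ k := by
  rcases Nat.eq_zero_or_pos K with rfl | hK
  · simp
  have key : ∀ M : ℕ, 1 ≤ M → (min 1 (a + b) - 2 / M) * K ≤ ∑ k ∈ range K, γ k := by
    intro M hM
    have hMR : (0 : ℝ) < M := by exact_mod_cast hM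
    have hα00 : 0 < α 0 := by
      have := hα 1 hK
      simp at this
      linarith
    have hβ00 : 0 < β 0 := by
      have := hβ 1 hK
      simp at this
      linarith
    set C : Finset ℕ := (range (K * M + 1)).filter fun n => n = 0 ∨
      (((n - 1) % M + 1 : ℕ) : ℝ) ≤ γ ((n - 1) / M) * M with hC
    have hmemC : ∀ k t : ℕ, 1 ≤ t → t ≤ M → k * M + t ≤ K * M → (t : ℝ) ≤ γ k * M →
        k * M + t ∈ C := by
      intro k t h1 h2 h3 h4
      have e1 : (k * M + t - 1) / M = k := by
        have : k * M + t - 1 = M * k + (t - 1) := by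
          rw [Nat.mul_comm M k]
          omega
        rw [this, Nat.mul_add_div hM, Nat.div_eq_of_lt (by omega)]
        simp
      have e2 : (k * M + t - 1) % M = t - 1 := by
        have : k * M + t - 1 = M * k + (t - 1) := by
          rw [Nat.mul_comm M k]
          omega
        rw [this, Nat.mul_add_mod]
        exact Nat.mod_eq_of_lt (by omega)
      rw [hC, mem_filter, mem_range]
      refine ⟨by omega, Or.inr ?_⟩
      rw [e1, e2, Nat.sub_add_cancel h1]
      exact h4
    have hfl : ∀ (x : ℝ) (t : ℕ), 1 ≤ t → t ≤ ⌊x * M⌋₊ → 0 < x ∧ (t : ℝ) ≤ x * M := by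
      intro x t h1 h2
      have h3 := (Nat.le_floor_iff' (by omega)).1 h2
      refine ⟨?_, h3⟩
      by_contra hx
      have : x * M ≤ 0 := by nlinarith [not_lt.1 hx]
      have h4 : (1 : ℝ) ≤ t := by exact_mod_cast h1
      linarith
    have hlt : ∀ k t : ℕ, 1 ≤ t → k * M + t ≤ K * M → k < K := by
      intro k t h1 h2
      by_contra hc
      have := Nat.mul_le_mul_right M (not_lt.1 hc)
      omega
    have hm := mann (n := K * M) (γ := min 1 (a + b - 2 / M)) (min_le_left _ _)
      (A := blk K M fun i => ⌊α i * M⌋₊) (B := blk K M fun i => ⌊β i * M⌋₊)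
      (mem_blk.2 (Or.inl rfl)) (mem_blk.2 (Or.inl rfl)) (by
        intro m hm hmK
        have h2 := cnt_blk_ge hM hα0 hα1 hα m hm hmK
        have h3 := cnt_blk_ge hM hβ0 hβ1 hβ m hm hmK
        have h4 : min 1 (a + b - 2 / M) * (m : ℝ) ≤ (a + b - 2 / M) * m :=
          mul_le_mul_of_nonneg_right (min_le_right _ _) (Nat.cast_nonneg m)
        have h5 : (a + b - 2 / M) * (m : ℝ) = (a - 1 / M) * m + (b - 1 / M) * m := by ring
        linarith) (C := C) (by
        intro x hx y hy hxy
        rcases mem_blk.1 hx with rfl | ⟨i, hi, t, ht1, ht2, rfl⟩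
        · rcases mem_blk.1 hy with rfl | ⟨j, hj, u, hu1, hu2, rfl⟩
          · rw [hC, mem_filter, mem_range]
            exact ⟨by omega, Or.inl rfl⟩
          · obtain ⟨h2, h3⟩ := hfl _ _ hu1 hu2
            have h4 := h0 0 j hα00 h2 (by omega)
            rw [Nat.zero_add] at h4 ⊢
            have h5 : β j ≤ γ j := by
              refine le_trans (le_min (hβ1 j) ?_) h4
              linarith
            have h6 : u ≤ M := by
              have : (u : ℝ) ≤ M := by nlinarith [hβ1 j]
              exact_mod_cast this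
            apply hmemC j u hu1 h6 (by omega)
            nlinarith
        · obtain ⟨h2, h3⟩ := hfl _ _ ht1 ht2
          have h6 : t ≤ M := by
            have : (t : ℝ) ≤ M := by nlinarith [hα1 i]
            exact_mod_cast this
          rcases mem_blk.1 hy with rfl | ⟨j, hj, u, hu1, hu2, rfl⟩
          · have h4 := h0 i 0 h2 hβ00 (by omega)
            rw [Nat.add_zero] at h4 ⊢
            have h5 : α i ≤ γ i := by
              refine le_trans (le_min (hα1 i) ?_) h4
              linarith
            apply hmemC i t ht1 h6 (by omega)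
            nlinarith
          · obtain ⟨h2', h3'⟩ := hfl _ _ hu1 hu2
            have h6' : u ≤ M := by
              have : (u : ℝ) ≤ M := by nlinarith [hβ1 j]
              exact_mod_cast this
            by_cases htu : t + u ≤ M
            · have e1 : i * M + t + (j * M + u) = (i + j) * M + (t + u) := by ring
              rw [e1] at hxy ⊢
              have hk := hlt (i + j) (t + u) (by omega) hxy
              have h4 := h0 i j h2 h2' hk
              apply hmemC _ _ (by omega) htu hxy
              have h7 : ((t + u : ℕ) : ℝ) ≤ min 1 (α i + β j) * M := by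
                rw [min_mul_of_nonneg _ _ hMR.le, one_mul]
                apply le_min
                · exact_mod_cast htu
                · push_cast
                  linarith
              exact le_trans h7 (mul_le_mul_of_nonneg_right h4 hMR.le)
            · have e1 : i * M + t + (j * M + u) = (i + j + 1) * M + (t + u - M) := by
                have : t + u = M + (t + u - M) := by omega
                have e2 : i * M + t + (j * M + u) = (i + j) * M + (t + u) := by ring
                rw [e2]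
                conv_lhs => rw [this]
                ring
              rw [e1] at hxy ⊢
              have hk := hlt (i + j + 1) (t + u - M) (by omega) hxy
              have h4 := h1 i j h2 h2' hk
              apply hmemC _ _ (by omega) (by omega) hxy
              have h7 : ((t + u - M : ℕ) : ℝ) ≤ min 1 (α i + β j) * M := by
                rw [min_mul_of_nonneg _ _ hMR.le, one_mul]
                have h8 : ((t + u - M : ℕ) : ℝ) = t + u - M := by
                  rw [Nat.cast_sub (by omega)]
                  push_cast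
                  ring
                rw [h8]
                have h9 : (t : ℝ) ≤ M := by exact_mod_cast h6
                have h10 : (u : ℝ) ≤ M := by exact_mod_cast h6'
                apply le_min
                · linarith
                · linarith
              exact le_trans h7 (mul_le_mul_of_nonneg_right h4 hMR.le))
    have h5 := cnt_le_sum (K := K) hM hγ0
    rw [← hC] at h5
    have h6 : min 1 (a + b - 2 / M) * ((K * M : ℕ) : ℝ) ≤ M * ∑ k ∈ range K, γ k :=
      le_trans hm h5
    have h7 : min 1 (a + b) - 2 / M ≤ min 1 (a + b - 2 / M) := by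
      have : (0 : ℝ) ≤ 2 / M := by positivity
      apply le_min
      · linarith [min_le_left 1 (a + b)]
      · linarith [min_le_right 1 (a + b)]
    have hKR : (0 : ℝ) ≤ K := Nat.cast_nonneg K
    have h8 : (min 1 (a + b) - 2 / M) * K * M ≤ (∑ k ∈ range K, γ k) * M := by
      push_cast at h6
      calc (min 1 (a + b) - 2 / M) * K * M ≤ min 1 (a + b - 2 / M) * K * M := by
            gcongr
        _ = min 1 (a + b - 2 / M) * (K * M) := by ring
        _ ≤ _ := by linarith
    exact le_of_mul_le_mul_right h8 hMR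
  by_contra hc
  push Not at hc
  set S := ∑ k ∈ range K, γ k
  set g := min 1 (a + b)
  have hKR : (0 : ℝ) < K := by exact_mod_cast hK
  obtain ⟨M, hM⟩ := exists_nat_gt (2 * K / (g * K - S))
  have hpos : 0 < g * K - S := by linarith
  have hM1 : 1 ≤ M := by
    have : (0 : ℝ) < M := lt_of_le_of_lt (by positivity) hM
    exact_mod_cast this
  have hMR : (0 : ℝ) < M := by exact_mod_cast hM1
  have h2 := key M hM1
  rw [div_lt_iff₀ hpos] at hM
  have h3 : (g - 2 / M) * K * M = g * K * M - 2 * K := by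
    field_simp
  have h4 : (g - 2 / M) * K * M ≤ S * M := mul_le_mul_of_nonneg_right h2 hMR.le
  nlinarith

end Pool.Agent.Lib.MP_629a14_nt.Mn
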