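import Pool.Agent.Lib.MP_629a14_nt.Mn.Robust
import Pool.Agent.Lib.MP_629a14_nt.Mp.RM

/-! The robust form of Mann's theorem, in the form used for the primes. -/

set_option autoImplicit false

namespace Pool.Agent.Lib.MP_629a14_nt.Mn

theorem robust_mann : Pool.Agent.Lib.MP_629a14_nt.Mp.RM := by
  intro a b ha _ hb _ ε hε
  obtain ⟨τ, hτ, δ, hδ, h⟩ := robust ha hb hε
  exact ⟨τ, δ, hτ, hδ, fun K al be hK h1 h2 h3 h4 => h K hK al be h1 h2 h3 h4⟩

end Pool.Agent.Lib.MP_629a14_nt.Mn
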