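import Mathlib

/-! Mann's theorem for sets of integers, by the Dyson transform. -/

set_option autoImplicit false

namespace Pool.Agent.Lib.MP_629a14_nt.Mn

open Finset

/-- number of positive elements `≤ m` -/
def cnt (A : Finset ℕ) (m : ℕ) : ℕ := (A.filter (fun a => 0 < a ∧ a ≤ m)).card

/-- number of elements `≤ m`, including `0` -/
def cnt0 (A : Finset ℕ) (m : ℕ) : ℕ := (A.filter (fun a => a ≤ m)).card

theorem cnt0_eq {A : Finset ℕ} (h0 : 0 ∈ A) (m : ℕ) : cnt0 A m = cnt A m + 1 := by
  classical
  unfold cnt0 cnt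
  have : A.filter (fun a => a ≤ m) = insert 0 (A.filter (fun a => 0 < a ∧ a ≤ m)) := by
    ext a
    simp only [mem_filter, mem_insert]
    constructor
    · rintro ⟨h1, h2⟩
      rcases Nat.eq_zero_or_pos a with h | h
      · exact Or.inl h
      · exact Or.inr ⟨h1, h, h2⟩
    · rintro (rfl | ⟨h1, h2, h3⟩)
      · exact ⟨h0, Nat.zero_le _⟩
      · exact ⟨h1, h3⟩
  rw [this, card_insert_of_notMem]
  simp

theorem cnt_mono_set {A C : Finset ℕ} {n m : ℕ} (h : ∀ a ∈ A, a ≤ n → a ∈ C) (hm : m ≤ n) :
    cnt A m ≤ cnt C m := by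
  unfold cnt
  apply card_le_card
  intro a ha
  simp only [mem_filter] at ha ⊢
  exact ⟨h a ha.1 (by omega), ha.2⟩

theorem split {A : Finset ℕ} {b m : ℕ} (hb : 1 ≤ b) (hbm : b ≤ m)
    (hcl : ∀ a ∈ A, a ≤ m - b → a + b ∈ A) : cnt A (b - 1) + cnt0 A (m - b) ≤ cnt A m := by
  classical
  unfold cnt0 cnt
  have h1 : (A.filter (fun a => a ≤ m - b)).card =
      ((A.filter (fun a => a ≤ m - b)).image (fun a => a + b)).card := by
    rw [card_image_of_injective]
    intro x y h
    simpa using h
  rw [h1, ← card_union_of_disjoint]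
  · apply card_le_card
    intro a ha
    simp only [mem_union, mem_filter, mem_image] at ha ⊢
    rcases ha with ⟨h2, h3, h4⟩ | ⟨x, ⟨h2, h3⟩, rfl⟩
    · exact ⟨h2, h3, by omega⟩
    · exact ⟨hcl x h2 h3, by omega, by omega⟩
  · rw [disjoint_left]
    intro a ha ha'
    simp only [mem_filter, mem_image] at ha ha'
    obtain ⟨x, hx, rfl⟩ := ha'
    omega

theorem star {A B : Finset ℕ} {n : ℕ} {γ : ℝ} (hγ : γ ≤ 1) (h0 : 0 ∈ A)
    (h : ∀ m, 1 ≤ m → m ≤ n → γ * m ≤ cnt A m + cnt B m) {e : ℕ}
    (hcl : ∀ a ∈ A, a < e → ∀ b ∈ B, a + b ≤ n → a + b ∈ A) :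
    ∀ j, j < e → j ≤ n → γ * (j + 1) ≤ cnt0 A j := by
  intro j
  induction j using Nat.strong_induction_on with
  | _ j ih =>
    intro hj hjn
    by_cases hB : ∃ b ∈ B, 1 ≤ b ∧ b ≤ j
    · obtain ⟨b, hb, hb1, hbj⟩ := hB
      have h1 := ih (b - 1) (by omega) (by omega) (by omega)
      have h2 := ih (j - b) (by omega) (by omega) (by omega)
      have h3 := split (A := A) hb1 hbj (fun a ha ha' => hcl a ha (by omega) b hb (by omega))
      have h4 := cnt0_eq h0 j
      have h5 := cnt0_eq h0 (b - 1)
      have h6 : cnt0 A (b - 1) + cnt0 A (j - b) ≤ cnt0 A j := by omega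
      have h7 : ((cnt0 A (b - 1) : ℕ) : ℝ) + cnt0 A (j - b) ≤ cnt0 A j := by exact_mod_cast h6
      have h8 : ((b - 1 : ℕ) : ℝ) = b - 1 := by
        rw [Nat.cast_sub hb1]
        simp
      have h9 : ((j - b : ℕ) : ℝ) = j - b := Nat.cast_sub hbj
      rw [h8] at h1
      rw [h9] at h2
      nlinarith
    · have hB0 : cnt B j = 0 := by
        unfold cnt
        rw [card_eq_zero, filter_eq_empty_iff]
        intro b hb hb'
        exact hB ⟨b, hb, hb'.1, hb'.2⟩
      have h1 : γ * j ≤ cnt A j := by
        rcases Nat.eq_zero_or_pos j with rfl | hj0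
        · simp
        · have := h j hj0 hjn
          rw [hB0] at this
          simpa using this
      have h2 := cnt0_eq h0 j
      have h3 : ((cnt0 A j : ℕ) : ℝ) = cnt A j + 1 := by exact_mod_cast h2
      rw [h3]
      nlinarith

theorem mann_aux (n : ℕ) {γ : ℝ} (hγ : γ ≤ 1) : ∀ k : ℕ, ∀ A B : Finset ℕ, B.card = k →
    0 ∈ A → 0 ∈ B → (∀ m, 1 ≤ m → m ≤ n → γ * m ≤ cnt A m + cnt B m) →
    ∀ C : Finset ℕ, (∀ a ∈ A, ∀ b ∈ B, a + b ≤ n → a + b ∈ C) → γ * n ≤ cnt C n := by
  classical
  intro k
  induction k using Nat.strong_induction_on with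
  | _ k ih =>
    intro A B hk hA hB h C hC
    rcases Nat.eq_zero_or_pos n with rfl | hn
    · simp
    by_cases hex : ∃ e, e ∈ A ∧ ∃ b ∈ B, e + b ≤ n ∧ e + b ∉ A
    · -- the transform
      set e := Nat.find hex with he
      obtain ⟨heA, b0, hb0, hb0n, hb0A⟩ := Nat.find_spec hex
      rw [← he] at heA hb0n hb0A
      have hcl : ∀ a ∈ A, a < e → ∀ b ∈ B, a + b ≤ n → a + b ∈ A := by
        intro a ha hae b hb hab
        by_contra hc
        exact Nat.find_min hex hae ⟨ha, b, hb, hab, hc⟩
      set B2 := B.filter (fun b => e + b ≤ n ∧ e + b ∉ A) with hB2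
      set B1 := B \ B2 with hB1
      set A1 := A ∪ B2.image (fun b => e + b) with hA1
      have hB2pos : ∀ b ∈ B2, 0 < b := by
        intro b hb
        rw [hB2, mem_filter] at hb
        rcases Nat.eq_zero_or_pos b with rfl | h
        · exact absurd heA (by simpa using hb.2.2)
        · exact h
      have hcard : B1.card < k := by
        rw [← hk, hB1]
        apply card_lt_card
        rw [ssubset_iff_of_subset sdiff_subset]
        refine ⟨b0, hb0, ?_⟩
        rw [mem_sdiff]
        intro hc
        exact hc.2 (by rw [hB2, mem_filter]; exact ⟨hb0, hb0n, hb0A⟩)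
      refine ih B1.card hcard A1 B1 rfl ?_ ?_ ?_ C ?_
      · exact mem_union_left _ hA
      · rw [hB1, mem_sdiff]
        exact ⟨hB, fun hc => lt_irrefl _ (hB2pos 0 hc)⟩
      · intro m hm hmn
        have hS := star hγ hA h hcl
        -- counts
        have e1 : cnt B1 m + (B2.filter (fun b => b ≤ m)).card = cnt B m := by
          unfold cnt
          rw [← card_union_of_disjoint]
          · congr 1
            ext b
            simp only [mem_union, mem_filter, hB1, mem_sdiff]
            constructor
            · rintro (⟨⟨h1, h2⟩, h3⟩ | ⟨h1, h2⟩)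
              · exact ⟨h1, h3⟩
              · exact ⟨(mem_filter.1 (hB2 ▸ h1)).1, hB2pos b h1, h2⟩
            · rintro ⟨h1, h2, h3⟩
              by_cases h4 : b ∈ B2
              · exact Or.inr ⟨h4, h3⟩
              · exact Or.inl ⟨⟨h1, h4⟩, h2, h3⟩
          · rw [disjoint_left]
            intro b hb hb'
            simp only [mem_filter, hB1, mem_sdiff] at hb hb'
            exact hb.1.2 hb'.1
        have e2 : cnt A m + (B2.filter (fun b => e + b ≤ m)).card = cnt A1 m := by
          unfold cnt
          have h1 : (B2.filter (fun b => e + b ≤ m)).card =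
              ((B2.filter (fun b => e + b ≤ m)).image (fun b => e + b)).card := by
            rw [card_image_of_injective]
            intro x y hxy
            simpa using hxy
          rw [h1, ← card_union_of_disjoint]
          · congr 1
            ext a
            simp only [mem_union, mem_filter, mem_image, hA1]
            constructor
            · rintro (⟨h2, h3⟩ | ⟨b, ⟨h2, h3⟩, rfl⟩)
              · exact ⟨Or.inl h2, h3⟩
              · exact ⟨Or.inr ⟨b, h2, rfl⟩, by have := hB2pos b h2; omega, h3⟩
            · rintro ⟨h2 | ⟨b, h2, rfl⟩, h3, h4⟩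
              · exact Or.inl ⟨h2, h3, h4⟩
              · exact Or.inr ⟨b, ⟨h2, h4⟩, rfl⟩
          · rw [disjoint_left]
            intro a ha ha'
            simp only [mem_filter, mem_image] at ha ha'
            obtain ⟨b, ⟨h2, h3⟩, rfl⟩ := ha'
            exact (mem_filter.1 (hB2 ▸ h2)).2.2 ha.1
        by_cases hD : ∃ b ∈ B2, b ≤ m ∧ m < e + b
        · obtain ⟨b1, hb1, hb1m, hb1e⟩ := hD
          have hex2 : ∃ b, b ∈ B ∧ 1 ≤ b ∧ b ≤ m ∧ m < e + b :=
            ⟨b1, (mem_filter.1 (hB2 ▸ hb1)).1, hB2pos b1 hb1, hb1m, hb1e⟩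
          set b := Nat.find hex2 with hbdef
          obtain ⟨hbB, hb1', hbm, hbe⟩ := Nat.find_spec hex2
          rw [← hbdef] at hbB hb1' hbm hbe
          have hmin : ∀ b' ∈ B, 1 ≤ b' → b' ≤ m → m < e + b' → b ≤ b' := by
            intro b' h1 h2 h3 h4
            exact Nat.find_min' hex2 ⟨h1, h2, h3, h4⟩
          have h1 : (B2.filter (fun b' => b' ≤ m)).card ≤ (B2.filter (fun b' => e + b' ≤ m)).card +
              (B.filter (fun b' => b ≤ b' ∧ b' ≤ m)).card := by
            rw [← card_union_of_disjoint]
            · apply card_le_card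
              intro x hx
              simp only [mem_filter, mem_union] at hx ⊢
              by_cases hx2 : e + x ≤ m
              · exact Or.inl ⟨hx.1, hx2⟩
              · have hxB := (mem_filter.1 (hB2 ▸ hx.1)).1
                exact Or.inr ⟨hxB, hmin x hxB (hB2pos x hx.1) hx.2 (by omega), hx.2⟩
            · rw [disjoint_left]
              intro x hx hx'
              simp only [mem_filter] at hx hx'
              omega
          have h2 : cnt B (b - 1) + (B.filter (fun b' => b ≤ b' ∧ b' ≤ m)).card = cnt B m := by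
            unfold cnt
            rw [← card_union_of_disjoint]
            · congr 1
              ext x
              simp only [mem_filter, mem_union]
              constructor
              · rintro (⟨h3, h4, h5⟩ | ⟨h3, h4, h5⟩)
                · exact ⟨h3, h4, by omega⟩
                · exact ⟨h3, by omega, h5⟩
              · rintro ⟨h3, h4, h5⟩
                by_cases h6 : b ≤ x
                · exact Or.inr ⟨h3, h6, h5⟩
                · exact Or.inl ⟨h3, h4, by omega⟩
            · rw [disjoint_left]
              intro x hx hx'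
              simp only [mem_filter] at hx hx'
              omega
          have h3 := split (A := A) hb1' hbm (fun a ha ha' => hcl a ha (by omega) b hbB (by omega))
          have h4 := hS (m - b) (by omega) (by omega)
          have h5 : γ * ((b - 1 : ℕ) : ℝ) ≤ cnt A (b - 1) + cnt B (b - 1) := by
            rcases Nat.eq_zero_or_pos (b - 1) with h6 | h6
            · rw [h6]
              simp only [Nat.cast_zero, mul_zero]
              positivity
            · exact h (b - 1) h6 (by omega)
          have h6 : cnt A (b - 1) + cnt0 A (m - b) + cnt B (b - 1) ≤ cnt A1 m + cnt B1 m := by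
            omega
          have h7 : ((cnt A (b - 1) : ℕ) : ℝ) + cnt0 A (m - b) + cnt B (b - 1) ≤
              cnt A1 m + cnt B1 m := by exact_mod_cast h6
          have h8 : ((b - 1 : ℕ) : ℝ) = b - 1 := by
            rw [Nat.cast_sub hb1']
            simp
          have h9 : ((m - b : ℕ) : ℝ) = m - b := Nat.cast_sub hbm
          rw [h8] at h5
          rw [h9] at h4
          nlinarith
        · have h1 : (B2.filter (fun b => b ≤ m)).card ≤ (B2.filter (fun b => e + b ≤ m)).card := by
            apply card_le_card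
            intro x hx
            simp only [mem_filter] at hx ⊢
            refine ⟨hx.1, ?_⟩
            by_contra hc
            exact hD ⟨x, hx.1, hx.2, by omega⟩
          have h2 := h m hm hmn
          have h3 : cnt A m + cnt B m ≤ cnt A1 m + cnt B1 m := by omega
          have h4 : ((cnt A m : ℕ) : ℝ) + cnt B m ≤ cnt A1 m + cnt B1 m := by exact_mod_cast h3
          linarith
      · intro a ha b hb hab
        rw [hB1, mem_sdiff] at hb
        rw [hA1, mem_union, mem_image] at ha
        rcases ha with ha | ⟨b', hb', rfl⟩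
        · exact hC a ha b hb.1 hab
        · have h1 : e + b ∈ A := by
            by_contra hc
            exact hb.2 (by rw [hB2, mem_filter]; exact ⟨hb.1, by omega, hc⟩)
          have h2 := hC (e + b) h1 b' (mem_filter.1 (hB2 ▸ hb')).1 (by omega)
          have h3 : e + b + b' = e + b' + b := by omega
          rwa [h3] at h2
    · have hcl : ∀ a ∈ A, a < n + 1 → ∀ b ∈ B, a + b ≤ n → a + b ∈ A := by
        intro a ha _ b hb hab
        by_contra hc
        exact hex ⟨a, ha, b, hb, hab, hc⟩
      have hAC : cnt A n ≤ cnt C n := by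
        apply cnt_mono_set (n := n) _ le_rfl
        intro a ha han
        simpa using hC a ha 0 hB (by omega)
      have hAC' : ((cnt A n : ℕ) : ℝ) ≤ cnt C n := by exact_mod_cast hAC
      refine le_trans ?_ hAC'
      by_cases hBn : ∃ b, b ∈ B ∧ 1 ≤ b ∧ b ≤ n
      · set b := Nat.find hBn with hbdef
        obtain ⟨hbB, hb1, hbn⟩ := Nat.find_spec hBn
        rw [← hbdef] at hbB hb1 hbn
        have hB0 : cnt B (b - 1) = 0 := by
          unfold cnt
          rw [card_eq_zero, filter_eq_empty_iff]
          intro x hx hx'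
          have := Nat.find_min' hBn ⟨hx, hx'.1, by omega⟩
          omega
        have h1 := split (A := A) hb1 hbn (fun a ha ha' => hcl a ha (by omega) b hbB (by omega))
        have h2 := star hγ hA h hcl (n - b) (by omega) (by omega)
        have h3 : γ * ((b - 1 : ℕ) : ℝ) ≤ cnt A (b - 1) := by
          rcases Nat.eq_zero_or_pos (b - 1) with h6 | h6
          · rw [h6]
            simp
          · have := h (b - 1) h6 (by omega)
            rw [hB0] at this
            simpa using this
        have h7 : ((cnt A (b - 1) : ℕ) : ℝ) + cnt0 A (n - b) ≤ cnt A n := by exact_mod_cast h1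
        have h8 : ((b - 1 : ℕ) : ℝ) = b - 1 := by
          rw [Nat.cast_sub hb1]
          simp
        have h9 : ((n - b : ℕ) : ℝ) = n - b := Nat.cast_sub hbn
        rw [h8] at h3
        rw [h9] at h2
        nlinarith
      · have hB0 : cnt B n = 0 := by
          unfold cnt
          rw [card_eq_zero, filter_eq_empty_iff]
          intro b hb hb'
          exact hBn ⟨b, hb, hb'.1, hb'.2⟩
        have := h n hn le_rfl
        rw [hB0] at this
        simpa using this

/-- **Mann's theorem.** -/
theorem mann {n : ℕ} {γ : ℝ} (hγ : γ ≤ 1) {A B : Finset ℕ} (hA : 0 ∈ A) (hB : 0 ∈ B)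
    (h : ∀ m, 1 ≤ m → m ≤ n → γ * m ≤ cnt A m + cnt B m) {C : Finset ℕ}
    (hC : ∀ a ∈ A, ∀ b ∈ B, a + b ≤ n → a + b ∈ C) : γ * n ≤ cnt C n :=
  mann_aux n hγ _ A B rfl hA hB h C hC

end Pool.Agent.Lib.MP_629a14_nt.Mn
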