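import Mathlib

/-! A removal lemma for sums of integers, from the triangle removal lemma. -/

set_option autoImplicit false

namespace Pool.Agent.Lib.MP_629a14_nt.Mn

open Finset

/-- the relation generating the graph -/
def gRel (M : ℕ) (A B S : Finset ℕ) (u v : Fin 3 × Fin M) : Prop :=
  (u.1 = 0 ∧ v.1 = 1 ∧ ∃ a ∈ A, (v.2 : ℕ) = u.2 + a) ∨
  (u.1 = 1 ∧ v.1 = 2 ∧ ∃ b ∈ B, (v.2 : ℕ) = u.2 + b) ∨
  (u.1 = 0 ∧ v.1 = 2 ∧ ∃ s ∈ S, (v.2 : ℕ) = u.2 + s)

/-- the graph: three copies of `[0, M)`; the edges between them are given by the differences -/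
def gr (M : ℕ) (A B S : Finset ℕ) : SimpleGraph (Fin 3 × Fin M) :=
  SimpleGraph.fromRel (gRel M A B S)

theorem gr_adj {M : ℕ} {A B S : Finset ℕ} {u v : Fin 3 × Fin M} (h : gRel M A B S u v) :
    (gr M A B S).Adj u v := by
  refine (SimpleGraph.fromRel_adj _ _ _).2 ⟨?_, Or.inl h⟩
  rintro rfl
  rcases h with h | h | h
  · exact absurd (h.1.symm.trans h.2.1) (by decide)
  · exact absurd (h.1.symm.trans h.2.1) (by decide)
  · exact absurd (h.1.symm.trans h.2.1) (by decide)

theorem adj_cases {M : ℕ} {A B S : Finset ℕ} {u v : Fin 3 × Fin M}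
    (h : (gr M A B S).Adj u v) : gRel M A B S u v ∨ gRel M A B S v u :=
  ((SimpleGraph.fromRel_adj _ _ _).1 h).2

theorem gRel_lt {M : ℕ} {A B S : Finset ℕ} {u v : Fin 3 × Fin M} (h : gRel M A B S u v) :
    u.1 < v.1 := by
  rcases h with h | h | h
  · rw [h.1, h.2.1]
    decide
  · rw [h.1, h.2.1]
    decide
  · rw [h.1, h.2.1]
    decide

theorem adj_ne {M : ℕ} {A B S : Finset ℕ} {u v : Fin 3 × Fin M}
    (h : (gr M A B S).Adj u v) : u.1 ≠ v.1 := by
  rcases adj_cases h with h | h
  · exact (gRel_lt h).ne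
  · exact (gRel_lt h).ne'

theorem adj_gRel {M : ℕ} {A B S : Finset ℕ} {u v : Fin 3 × Fin M}
    (h : (gr M A B S).Adj u v) (huv : u.1 < v.1) : gRel M A B S u v := by
  rcases adj_cases h with h | h
  · exact h
  · exact absurd (gRel_lt h) (not_lt.2 huv.le)

open Classical in
/-- the number of triangles -/
theorem card_triangles (M : ℕ) (A B S : Finset ℕ) :
    ((gr M A B S).cliqueFinset 3).card ≤
      M * ((A ×ˢ B).filter fun p => p.1 + p.2 ∈ S).card := by
  classical
  rcases Nat.eq_zero_or_pos M with rfl | hM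
  · have : ((gr 0 A B S).cliqueFinset 3) = ∅ := by
      rw [Finset.eq_empty_iff_forall_notMem]
      intro s hs
      rw [SimpleGraph.mem_cliqueFinset_iff] at hs
      have h3 := hs.card_eq
      have : s = ∅ := by
        rw [Finset.eq_empty_iff_forall_notMem]
        rintro ⟨i, x⟩ -
        exact Nat.not_lt_zero _ x.2
      rw [this] at h3
      simp at h3
    rw [this]
    simp
  let f : ℕ × (ℕ × ℕ) → Finset (Fin 3 × Fin M) := fun q =>
    {((0 : Fin 3), (⟨q.1 % M, Nat.mod_lt _ hM⟩ : Fin M)),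
      ((1 : Fin 3), (⟨(q.1 + q.2.1) % M, Nat.mod_lt _ hM⟩ : Fin M)),
      ((2 : Fin 3), (⟨(q.1 + q.2.1 + q.2.2) % M, Nat.mod_lt _ hM⟩ : Fin M))}
  have hsub : (gr M A B S).cliqueFinset 3 ⊆
      ((range M) ×ˢ ((A ×ˢ B).filter fun p => p.1 + p.2 ∈ S)).image f := by
    intro s hs
    rw [SimpleGraph.mem_cliqueFinset_iff, SimpleGraph.is3Clique_iff] at hs
    obtain ⟨u, v, w, huv, huw, hvw, rfl⟩ := hs
    -- sort the three vertices
    have key : ∀ u v w : Fin 3 × Fin M, (gr M A B S).Adj u v → (gr M A B S).Adj u w →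
        (gr M A B S).Adj v w → u.1 < v.1 → v.1 < w.1 → ({u, v, w} : Finset (Fin 3 × Fin M)) ∈
        ((range M) ×ˢ ((A ×ˢ B).filter fun p => p.1 + p.2 ∈ S)).image f := by
      intro u v w huv huw hvw h1 h2
      have hu : u.1 = 0 := by
        obtain ⟨⟨i, hi⟩, x⟩ := u
        obtain ⟨⟨j, hj⟩, y⟩ := v
        obtain ⟨⟨k, hk⟩, z⟩ := w
        simp only [Fin.mk_lt_mk] at h1 h2
        apply Fin.ext
        simp only [Fin.val_zero]
        omega
      have hv : v.1 = 1 := by
        obtain ⟨⟨i, hi⟩, x⟩ := u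
        obtain ⟨⟨j, hj⟩, y⟩ := v
        obtain ⟨⟨k, hk⟩, z⟩ := w
        simp only [Fin.mk_lt_mk] at h1 h2
        apply Fin.ext
        simp only [Fin.val_one]
        omega
      have hw : w.1 = 2 := by
        obtain ⟨⟨i, hi⟩, x⟩ := u
        obtain ⟨⟨j, hj⟩, y⟩ := v
        obtain ⟨⟨k, hk⟩, z⟩ := w
        simp only [Fin.mk_lt_mk] at h1 h2
        apply Fin.ext
        simp only [Fin.val_two]
        omega
      have e1 : ∃ a ∈ A, (v.2 : ℕ) = u.2 + a := by
        rcases adj_gRel huv h1 with h | h | h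
        · exact h.2.2
        · exact absurd (hu.symm.trans h.1) (by decide)
        · exact absurd (hv.symm.trans h.2.1) (by decide)
      have e2 : ∃ b ∈ B, (w.2 : ℕ) = v.2 + b := by
        rcases adj_gRel hvw h2 with h | h | h
        · exact absurd (hv.symm.trans h.1) (by decide)
        · exact h.2.2
        · exact absurd (hv.symm.trans h.1) (by decide)
      have e3 : ∃ s ∈ S, (w.2 : ℕ) = u.2 + s := by
        rcases adj_gRel huw (h1.trans h2) with h | h | h
        · exact absurd (hw.symm.trans h.2.1) (by decide)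
        · exact absurd (hu.symm.trans h.1) (by decide)
        · exact h.2.2
      obtain ⟨a, ha, ea⟩ := e1
      obtain ⟨b, hb, eb⟩ := e2
      obtain ⟨s, hs, es⟩ := e3
      rw [mem_image]
      refine ⟨((u.2 : ℕ), (a, b)), ?_, ?_⟩
      · rw [mem_product, mem_filter, mem_product]
        refine ⟨mem_range.2 u.2.2, ⟨ha, hb⟩, ?_⟩
        have : a + b = s := by omega
        simp only [this]
        exact hs
      · simp only [f]
        have c1 : (u.2 : ℕ) % M = u.2 := Nat.mod_eq_of_lt u.2.2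
        have c2 : ((u.2 : ℕ) + a) % M = v.2 := by
          rw [← ea]
          exact Nat.mod_eq_of_lt v.2.2
        have c3 : ((u.2 : ℕ) + a + b) % M = w.2 := by
          rw [← ea, ← eb]
          exact Nat.mod_eq_of_lt w.2.2
        have d1 : ((0 : Fin 3), (⟨(u.2 : ℕ) % M, Nat.mod_lt _ hM⟩ : Fin M)) = u := by
          apply Prod.ext
          · exact hu.symm
          · exact Fin.ext c1
        have d2 : ((1 : Fin 3), (⟨((u.2 : ℕ) + a) % M, Nat.mod_lt _ hM⟩ : Fin M)) = v := by
          apply Prod.ext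
          · exact hv.symm
          · exact Fin.ext c2
        have d3 : ((2 : Fin 3), (⟨((u.2 : ℕ) + a + b) % M, Nat.mod_lt _ hM⟩ : Fin M)) = w := by
          apply Prod.ext
          · exact hw.symm
          · exact Fin.ext c3
        rw [d1, d2, d3]
    have n1 := adj_ne huv
    have n2 := adj_ne huw
    have n3 := adj_ne hvw
    rcases lt_or_gt_of_ne n1 with h1 | h1
    · rcases lt_or_gt_of_ne n3 with h3 | h3
      · exact key u v w huv huw hvw h1 h3
      · rcases lt_or_gt_of_ne n2 with h2 | h2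
        · have : ({u, v, w} : Finset (Fin 3 × Fin M)) = {u, w, v} := by
            ext x
            simp only [mem_insert, mem_singleton]
            tauto
          rw [this]
          exact key u w v huw huv hvw.symm h2 h3
        · have : ({u, v, w} : Finset (Fin 3 × Fin M)) = {w, u, v} := by
            ext x
            simp only [mem_insert, mem_singleton]
            tauto
          rw [this]
          exact key w u v huw.symm hvw.symm huv h2 h1
    · rcases lt_or_gt_of_ne n2 with h2 | h2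
      · have : ({u, v, w} : Finset (Fin 3 × Fin M)) = {v, u, w} := by
          ext x
          simp only [mem_insert, mem_singleton]
          tauto
        rw [this]
        exact key v u w huv.symm hvw huw h1 h2
      · rcases lt_or_gt_of_ne n3 with h3 | h3
        · have : ({u, v, w} : Finset (Fin 3 × Fin M)) = {v, w, u} := by
            ext x
            simp only [mem_insert, mem_singleton]
            tauto
          rw [this]
          exact key v w u hvw huv.symm huw.symm h3 h2
        · have : ({u, v, w} : Finset (Fin 3 × Fin M)) = {w, v, u} := by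
            ext x
            simp only [mem_insert, mem_singleton]
            tauto
          rw [this]
          exact key w v u hvw.symm huw.symm huv.symm h3 h1
  refine le_trans (card_le_card hsub) (le_trans card_image_le ?_)
  rw [card_product, card_range]

/-- the number of deleted edges -/
theorem sum_deleted {M : ℕ} {G G' : SimpleGraph (Fin 3 × Fin M)} [Fintype G.edgeSet]
    [Fintype G'.edgeSet] [DecidableRel G'.Adj] (hle : G' ≤ G) {i j : Fin 3}
    (hij : i ≠ j) {D : Finset ℕ}
    (hD : ∀ d ∈ D, ∀ x y : Fin M, (y : ℕ) = x + d → G.Adj (i, x) (j, y)) :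
    (∑ d ∈ D, (((univ : Finset (Fin M × Fin M)).filter fun p => (p.2 : ℕ) = p.1 + d ∧
      ¬ G'.Adj (i, p.1) (j, p.2)).card : ℝ)) ≤ G.edgeFinset.card - G'.edgeFinset.card := by
  classical
  have hsub := SimpleGraph.edgeFinset_mono hle
  have h1 : (G.edgeFinset.card : ℝ) - G'.edgeFinset.card = ((G.edgeFinset \ G'.edgeFinset).card : ℝ) := by
    rw [card_sdiff_of_subset hsub, Nat.cast_sub (card_le_card hsub)]
  rw [h1]
  have h2 : (D.sigma fun d => (univ : Finset (Fin M × Fin M)).filter fun p =>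
      (p.2 : ℕ) = p.1 + d ∧ ¬ G'.Adj (i, p.1) (j, p.2)).card ≤
      (G.edgeFinset \ G'.edgeFinset).card := by
    apply card_le_card_of_injOn (fun q => s((i, q.2.1), (j, q.2.2)))
    · rintro ⟨d, p⟩ hq
      simp only [coe_sigma, Set.mem_sigma_iff, mem_coe, mem_filter, mem_univ, true_and] at hq
      simp only [mem_coe, mem_sdiff, SimpleGraph.mem_edgeFinset, SimpleGraph.mem_edgeSet]
      exact ⟨hD d hq.1 _ _ hq.2.1, hq.2.2⟩
    · rintro ⟨d, p⟩ hq ⟨d', p'⟩ hq' h
      simp only [coe_sigma, Set.mem_sigma_iff, mem_coe, mem_filter, mem_univ, true_and] at hq hq'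
      simp only [Sym2.eq_iff, Prod.mk.injEq] at h
      rcases h with ⟨⟨_, h1⟩, _, h2⟩ | ⟨⟨h1, _⟩, _⟩
      · have e1 : p = p' := Prod.ext h1 h2
        subst e1
        have e2 : d = d' := by omega
        subst e2
        rfl
      · exact absurd h1 hij
  rw [card_sigma] at h2
  exact_mod_cast h2

/-- **Removal lemma for sums.** -/
theorem removal {η : ℝ} (hη : 0 < η) : ∃ κ : ℝ, 0 < κ ∧ ∀ K : ℕ, 1 ≤ K → ∀ A B S : Finset ℕ,
    (∀ a ∈ A, a < K) → (∀ b ∈ B, b < K) → (∀ s ∈ S, s < 2 * K) →
    (((A ×ˢ B).filter fun p => p.1 + p.2 ∈ S).card : ℝ) ≤ κ * K ^ 2 →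
    ∃ A' B' S' : Finset ℕ, A' ⊆ A ∧ B' ⊆ B ∧ S' ⊆ S ∧ (A'.card : ℝ) ≤ η * K ∧
      (B'.card : ℝ) ≤ η * K ∧ (S'.card : ℝ) ≤ η * K ∧
      ∀ a ∈ A, a ∉ A' → ∀ b ∈ B, b ∉ B' → a + b ∈ S → a + b ∈ S' := by
  classical
  set ε : ℝ := η / 1000 with hε
  have hε0 : 0 < ε := by positivity
  refine ⟨SimpleGraph.triangleRemovalBound ε, SimpleGraph.triangleRemovalBound_pos hε0, ?_⟩
  intro K hK A B S hA hB hS hcount
  set κ := SimpleGraph.triangleRemovalBound ε with hκ
  have hκ0 : 0 < κ := SimpleGraph.triangleRemovalBound_pos hε0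
  have hKR : (1 : ℝ) ≤ K := by exact_mod_cast hK
  set M := 8 * K with hM
  have hV : Fintype.card (Fin 3 × Fin M) = 24 * K := by
    simp [hM]
    ring
  have htri : (((gr M A B S).cliqueFinset 3).card : ℝ) <
      κ * (Fintype.card (Fin 3 × Fin M) : ℝ) ^ 3 := by
    have h1 := card_triangles M A B S
    have h2 : (((gr M A B S).cliqueFinset 3).card : ℝ) ≤
        (M : ℝ) * (((A ×ˢ B).filter fun p => p.1 + p.2 ∈ S).card : ℝ) := by exact_mod_cast h1
    have h3 : (M : ℝ) = 8 * K := by rw [hM]; push_cast; ring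
    rw [hV]
    push_cast
    calc (((gr M A B S).cliqueFinset 3).card : ℝ)
        ≤ (M : ℝ) * (((A ×ˢ B).filter fun p => p.1 + p.2 ∈ S).card : ℝ) := h2
      _ ≤ (8 * K) * (κ * K ^ 2) := by
          rw [h3]
          gcongr
      _ = 8 * (κ * (K : ℝ) ^ 3) := by ring
      _ < 13824 * (κ * (K : ℝ) ^ 3) := by
          have : 0 < κ * (K : ℝ) ^ 3 := by positivity
          linarith
      _ = κ * (24 * K) ^ 3 := by ring
  obtain ⟨G', hle, hdec, hdel, hfree⟩ := SimpleGraph.triangle_removal htri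
  have hdel' : ((gr M A B S).edgeFinset.card : ℝ) - G'.edgeFinset.card < 576 * ε * K ^ 2 := by
    have e : ε * ((Fintype.card (Fin 3 × Fin M) ^ 2 : ℕ) : ℝ) = 576 * ε * K ^ 2 := by
      rw [hV]
      push_cast
      ring
    rw [← e]
    convert hdel using 3
  set r : Fin 3 → Fin 3 → ℕ → ℕ := fun i j d =>
    ((univ : Finset (Fin M × Fin M)).filter fun p => (p.2 : ℕ) = p.1 + d ∧
      ¬ G'.Adj (i, p.1) (j, p.2)).card with hr
  -- few bad differences
  have hbad : ∀ (i j : Fin 3) (D : Finset ℕ), i ≠ j →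
      (∀ d ∈ D, ∀ x y : Fin M, (y : ℕ) = x + d → (gr M A B S).Adj (i, x) (j, y)) →
      (((D.filter fun d => 4 * K ≤ 3 * r i j d).card : ℕ) : ℝ) ≤ η * K := by
    intro i j D hij hD
    have h1 := sum_deleted hle hij hD
    have h2 : (((D.filter fun d => 4 * K ≤ 3 * r i j d).card : ℕ) : ℝ) * (4 * K / 3) ≤
        ∑ d ∈ D, (r i j d : ℝ) := by
      calc (((D.filter fun d => 4 * K ≤ 3 * r i j d).card : ℕ) : ℝ) * (4 * K / 3)
          = ∑ d ∈ D.filter (fun d => 4 * K ≤ 3 * r i j d), (4 * K / 3 : ℝ) := by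
            rw [sum_const, nsmul_eq_mul]
        _ ≤ ∑ d ∈ D.filter (fun d => 4 * K ≤ 3 * r i j d), (r i j d : ℝ) := by
            apply sum_le_sum
            intro d hd
            have h3 := (mem_filter.1 hd).2
            have h4 : (4 * K : ℝ) ≤ 3 * r i j d := by exact_mod_cast h3
            linarith
        _ ≤ ∑ d ∈ D, (r i j d : ℝ) :=
            sum_le_sum_of_subset_of_nonneg (filter_subset _ _) fun _ _ _ => Nat.cast_nonneg _
    have h3 : ∑ d ∈ D, (r i j d : ℝ) ≤ 576 * ε * K ^ 2 := by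
      refine le_trans (le_trans (le_of_eq ?_) h1) hdel'.le
      apply sum_congr rfl
      intro d _
      simp only [hr]
    have h4 : (((D.filter fun d => 4 * K ≤ 3 * r i j d).card : ℕ) : ℝ) * (4 * K / 3) ≤
        576 * ε * K ^ 2 := le_trans h2 h3
    have h5 : 576 * ε * (K : ℝ) ^ 2 ≤ (η * K) * (4 * K / 3) := by
      rw [hε]
      have : 0 ≤ η * (K : ℝ) ^ 2 := by positivity
      nlinarith
    have h6 : (0 : ℝ) < 4 * K / 3 := by positivity
    exact le_of_mul_le_mul_right (le_trans h4 h5) h6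
  refine ⟨A.filter fun a => 4 * K ≤ 3 * r 0 1 a, B.filter fun b => 4 * K ≤ 3 * r 1 2 b,
    S.filter fun s => 4 * K ≤ 3 * r 0 2 s, filter_subset _ _, filter_subset _ _,
    filter_subset _ _, ?_, ?_, ?_, ?_⟩
  · apply hbad 0 1 A (by decide)
    intro d hd x y hxy
    exact gr_adj (Or.inl ⟨rfl, rfl, d, hd, hxy⟩)
  · apply hbad 1 2 B (by decide)
    intro d hd x y hxy
    exact gr_adj (Or.inr (Or.inl ⟨rfl, rfl, d, hd, hxy⟩))
  · apply hbad 0 2 S (by decide)
    intro d hd x y hxy
    exact gr_adj (Or.inr (Or.inr ⟨rfl, rfl, d, hd, hxy⟩))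
  · intro a ha ha' b hb hb' hs
    rw [mem_filter] at ha' hb' ⊢
    refine ⟨hs, ?_⟩
    by_contra hc
    have n1 : 3 * r 0 1 a < 4 * K := by
      by_contra h
      exact ha' ⟨ha, by omega⟩
    have n2 : 3 * r 1 2 b < 4 * K := by
      by_contra h
      exact hb' ⟨hb, by omega⟩
    have n3 : 3 * r 0 2 (a + b) < 4 * K := by omega
    have haK := hA a ha
    have hbK := hB b hb
    -- the vertices x for which one of the edges is deleted
    let g1 : ℕ → Fin M := fun x => ⟨x % M, Nat.mod_lt _ (by omega)⟩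
    have hg : ∀ x, x < M → ((g1 x : Fin M) : ℕ) = x := fun x hx => Nat.mod_eq_of_lt hx
    set X := range (4 * K) with hX
    have m1 : (X.filter fun x => ¬ G'.Adj (0, g1 x) (1, g1 (x + a))).card ≤ r 0 1 a := by
      apply card_le_card_of_injOn (fun x => (g1 x, g1 (x + a)))
      · intro x hx
        simp only [coe_filter, Set.mem_ofPred_eq, hX, mem_range] at hx
        simp only [coe_filter, Set.mem_ofPred_eq, mem_univ, true_and]
        refine ⟨?_, hx.2⟩
        rw [hg _ (by omega), hg _ (by omega)]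
      · intro x hx x' hx' h
        simp only [coe_filter, Set.mem_ofPred_eq, hX, mem_range] at hx hx'
        have h1 := congrArg (fun p : Fin M × Fin M => (p.1 : ℕ)) h
        simp only at h1
        rw [hg _ (by omega), hg _ (by omega)] at h1
        exact h1
    have m2 : (X.filter fun x => ¬ G'.Adj (1, g1 (x + a)) (2, g1 (x + a + b))).card ≤ r 1 2 b := by
      apply card_le_card_of_injOn (fun x => (g1 (x + a), g1 (x + a + b)))
      · intro x hx
        simp only [coe_filter, Set.mem_ofPred_eq, hX, mem_range] at hx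
        simp only [coe_filter, Set.mem_ofPred_eq, mem_univ, true_and]
        refine ⟨?_, hx.2⟩
        rw [hg _ (by omega), hg _ (by omega)]
      · intro x hx x' hx' h
        simp only [coe_filter, Set.mem_ofPred_eq, hX, mem_range] at hx hx'
        have h1 := congrArg (fun p : Fin M × Fin M => (p.1 : ℕ)) h
        simp only at h1
        rw [hg _ (by omega), hg _ (by omega)] at h1
        omega
    have m3 : (X.filter fun x => ¬ G'.Adj (0, g1 x) (2, g1 (x + a + b))).card ≤
        r 0 2 (a + b) := by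
      apply card_le_card_of_injOn (fun x => (g1 x, g1 (x + a + b)))
      · intro x hx
        simp only [coe_filter, Set.mem_ofPred_eq, hX, mem_range] at hx
        simp only [coe_filter, Set.mem_ofPred_eq, mem_univ, true_and]
        refine ⟨?_, hx.2⟩
        rw [hg _ (by omega), hg _ (by omega)]
        omega
      · intro x hx x' hx' h
        simp only [coe_filter, Set.mem_ofPred_eq, hX, mem_range] at hx hx'
        have h1 := congrArg (fun p : Fin M × Fin M => (p.1 : ℕ)) h
        simp only at h1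
        rw [hg _ (by omega), hg _ (by omega)] at h1
        exact h1
    have hlt : ((X.filter fun x => ¬ G'.Adj (0, g1 x) (1, g1 (x + a))) ∪
        (X.filter fun x => ¬ G'.Adj (1, g1 (x + a)) (2, g1 (x + a + b))) ∪
        (X.filter fun x => ¬ G'.Adj (0, g1 x) (2, g1 (x + a + b)))).card < X.card := by
      have h1 := card_union_le ((X.filter fun x => ¬ G'.Adj (0, g1 x) (1, g1 (x + a))) ∪
        (X.filter fun x => ¬ G'.Adj (1, g1 (x + a)) (2, g1 (x + a + b))))
        (X.filter fun x => ¬ G'.Adj (0, g1 x) (2, g1 (x + a + b)))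
      have h2 := card_union_le (X.filter fun x => ¬ G'.Adj (0, g1 x) (1, g1 (x + a)))
        (X.filter fun x => ¬ G'.Adj (1, g1 (x + a)) (2, g1 (x + a + b)))
      have h3 : X.card = 4 * K := by rw [hX, card_range]
      omega
    obtain ⟨x, hxX, hx⟩ := exists_mem_notMem_of_card_lt_card hlt
    simp only [mem_union, mem_filter, not_or, not_and, not_not] at hx
    have a1 := hx.1.1 hxX
    have a2 := hx.1.2 hxX
    have a3 := hx.2 hxX
    apply hfree {((0 : Fin 3), g1 x), ((1 : Fin 3), g1 (x + a)), ((2 : Fin 3), g1 (x + a + b))}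
    rw [SimpleGraph.is3Clique_triple_iff]
    exact ⟨a1, a3, a2⟩

end Pool.Agent.Lib.MP_629a14_nt.Mn
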