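import Pool.Agent.Lib.MP_629a14_nt.Mn.Cells
import Pool.Agent.Lib.MP_629a14_nt.Mn.Removal

/-! The robust form of Mann's theorem for profiles. -/

set_option autoImplicit false

namespace Pool.Agent.Lib.MP_629a14_nt.Mn

open Finset

/-- the convolution of two centred arcs -/
noncomputable def trp (a b x : ℝ) : ℝ := min (min a b) (max (max 0 (a + b - 1)) ((a + b) / 2 - x))

/-- the count at the cell `k` -/
noncomputable def GG (K : ℕ) (al be : ℕ → ℝ) (k : ℕ) (x : ℝ) : ℝ :=
  1 / (K : ℝ) * (∑ i ∈ range (k + 1), trp (al i) (be (k - i)) x +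
    ∑ i ∈ range k, trp (al i) (be (k - 1 - i)) x)

theorem trp_mono {a b a' b' : ℝ} (x : ℝ) (ha : a ≤ a') (hb : b ≤ b') :
    trp a b x ≤ trp a' b' x := by
  unfold trp
  apply min_le_min (min_le_min ha hb)
  apply max_le_max (max_le_max le_rfl (by linarith)) (by linarith)

theorem trp_nonneg {a b : ℝ} (x : ℝ) (ha : 0 ≤ a) (hb : 0 ≤ b) : 0 ≤ trp a b x :=
  le_min (le_min ha hb) (le_max_of_le_left (le_max_left _ _))

theorem trp_ge {a b x η : ℝ} (ha : η ≤ a) (hb : η ≤ b) (hx : x ≤ (a + b) / 2 - η) :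
    η ≤ trp a b x :=
  le_min (le_min ha hb) (le_max_of_le_right (by linarith))

theorem trp_cont (a b : ℝ) : Continuous fun x => trp a b x := by
  unfold trp
  fun_prop

theorem GG_cont (K : ℕ) (al be : ℕ → ℝ) (k : ℕ) : Continuous fun x => GG K al be k x := by
  unfold GG
  apply Continuous.mul continuous_const
  apply Continuous.add
  · exact continuous_finsetSum _ fun i _ => trp_cont _ _
  · exact continuous_finsetSum _ fun i _ => trp_cont _ _

theorem GG_nonneg {K : ℕ} {al be : ℕ → ℝ} (ha : ∀ i, 0 ≤ al i) (hb : ∀ i, 0 ≤ be i) (k : ℕ)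
    (x : ℝ) : 0 ≤ GG K al be k x := by
  unfold GG
  apply mul_nonneg (by positivity)
  apply add_nonneg
  · exact sum_nonneg fun i _ => trp_nonneg _ (ha _) (hb _)
  · exact sum_nonneg fun i _ => trp_nonneg _ (ha _) (hb _)

/-- the truncated mean -/
noncomputable def pp (K : ℕ) (al be : ℕ → ℝ) (τ : ℝ) (k : ℕ) : ℝ :=
  2 * ∫ x in (0 : ℝ)..(1 / 2), min 1 (GG K al be k x / τ)

theorem pp_nonneg {K : ℕ} {al be : ℕ → ℝ} {τ : ℝ} (ha : ∀ i, 0 ≤ al i) (hb : ∀ i, 0 ≤ be i)
    (hτ : 0 < τ) (k : ℕ) : 0 ≤ pp K al be τ k := by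
  unfold pp
  apply mul_nonneg zero_le_two
  apply intervalIntegral.integral_nonneg (by norm_num)
  intro x _
  exact le_min zero_le_one (div_nonneg (GG_nonneg ha hb k x) hτ.le)

theorem pp_ge {K : ℕ} {al be : ℕ → ℝ} {τ y : ℝ} (ha : ∀ i, 0 ≤ al i) (hb : ∀ i, 0 ≤ be i)
    (hτ : 0 < τ) (k : ℕ) (hy : y ≤ 1 / 2) (h : ∀ x, x ≤ y → τ ≤ GG K al be k x) :
    2 * y ≤ pp K al be τ k := by
  rcases le_total y 0 with hy0 | hy0
  · exact le_trans (by linarith) (pp_nonneg ha hb hτ k)
  unfold pp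
  have hc : Continuous fun x => min 1 (GG K al be k x / τ) := by
    have := GG_cont K al be k
    fun_prop
  have h1 : ∫ x in (0 : ℝ)..(1 / 2), min 1 (GG K al be k x / τ) =
      (∫ x in (0 : ℝ)..y, min 1 (GG K al be k x / τ)) +
      ∫ x in y..(1 / 2), min 1 (GG K al be k x / τ) :=
    (intervalIntegral.integral_add_adjacent_intervals (hc.intervalIntegrable _ _)
      (hc.intervalIntegrable _ _)).symm
  have h2 : ∫ x in (0 : ℝ)..y, min 1 (GG K al be k x / τ) = y := by
    have : ∫ x in (0 : ℝ)..y, min 1 (GG K al be k x / τ) = ∫ x in (0 : ℝ)..y, (1 : ℝ) := by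
      apply intervalIntegral.integral_congr
      intro x hx
      rw [Set.uIcc_of_le hy0] at hx
      have := h x hx.2
      apply min_eq_left
      rw [le_div_iff₀ hτ]
      linarith
    rw [this]
    simp
  have h3 : 0 ≤ ∫ x in y..(1 / 2), min 1 (GG K al be k x / τ) := by
    apply intervalIntegral.integral_nonneg hy
    intro x _
    exact le_min zero_le_one (div_nonneg (GG_nonneg ha hb k x) hτ.le)
  rw [h1, h2]
  linarith

/-- the level of a value -/
noncomputable def lev (Q : ℕ) (z : ℝ) : ℕ := ⌊z * Q⌋₊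

/-- the level set -/
noncomputable def lset (K Q : ℕ) (al : ℕ → ℝ) (s : ℕ) : Finset ℕ :=
  (range K).filter fun i => lev Q (al i) = s

theorem lev_le {Q : ℕ} {z : ℝ} (h : z ≤ 1) : lev Q z ≤ Q := by
  unfold lev
  have h2 : z * Q ≤ Q := by
    have : (0 : ℝ) ≤ Q := Nat.cast_nonneg Q
    nlinarith
  calc ⌊z * Q⌋₊ ≤ ⌊(Q : ℝ)⌋₊ := Nat.floor_le_floor h2
    _ = Q := Nat.floor_natCast Q

theorem lev_div_le {Q : ℕ} (hQ : 1 ≤ Q) {z : ℝ} (h : 0 ≤ z) : (lev Q z : ℝ) / Q ≤ z := by
  have hQR : (0 : ℝ) < Q := by exact_mod_cast hQ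
  rw [div_le_iff₀ hQR]
  exact Nat.floor_le (by positivity)

theorem lt_lev_div {Q : ℕ} (hQ : 1 ≤ Q) (z : ℝ) : z ≤ ((lev Q z : ℝ) + 1) / Q := by
  have hQR : (0 : ℝ) < Q := by exact_mod_cast hQ
  rw [le_div_iff₀ hQR]
  exact (Nat.lt_floor_add_one _).le

/-- popular pairs give a lower bound for the count -/
theorem GG_ge {K Q : ℕ} (hK : 1 ≤ K) (hQ : 1 ≤ Q) {al be : ℕ → ℝ} (ha : ∀ i, 0 ≤ al i)
    (hb : ∀ i, 0 ≤ be i) {s t k : ℕ} {κ : ℝ} (hs : 1 ≤ s) (ht : 1 ≤ t)
    (hpop : κ * K ≤ (((lset K Q al s ×ˢ lset K Q be t).filter fun p => p.1 + p.2 = k).card : ℝ) +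
      (((lset K Q al s ×ˢ lset K Q be t).filter fun p => p.1 + p.2 + 1 = k).card : ℝ)) {x : ℝ}
    (hx : x ≤ ((s : ℝ) + t) / (2 * Q) - 1 / Q) : κ / Q ≤ GG K al be k x := by
  have hQR : (0 : ℝ) < Q := by exact_mod_cast hQ
  have hKR : (0 : ℝ) < K := by exact_mod_cast hK
  have hsR : (1 : ℝ) ≤ s := by exact_mod_cast hs
  have htR : (1 : ℝ) ≤ t := by exact_mod_cast ht
  have hT : 1 / (Q : ℝ) ≤ trp (s / Q) (t / Q) x := by
    apply trp_ge
    · exact div_le_div_of_nonneg_right hsR hQR.le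
    · exact div_le_div_of_nonneg_right htR hQR.le
    · have : ((s : ℝ) / Q + t / Q) / 2 = (s + t) / (2 * Q) := by
        field_simp
      rw [this]
      exact hx
  have hT0 : 0 < 1 / (Q : ℝ) := by positivity
  have gen : ∀ (n : ℕ) (c : ℕ) (f : ℕ → ℕ) (F : Finset (ℕ × ℕ)),
      (∀ p ∈ F, p.1 ∈ lset K Q al s ∧ p.2 ∈ lset K Q be t ∧ p.1 < n ∧ p.2 = f p.1) →
      F.card = c → (c : ℝ) * (1 / Q) ≤ ∑ i ∈ range n, trp (al i) (be (f i)) x := by
    intro n c f F hF hc
    have h1 : F.card ≤ ((range n).filter fun i => lev Q (al i) = s ∧ lev Q (be (f i)) = t).card := by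
      apply card_le_card_of_injOn (fun p => p.1)
      · intro p hp
        obtain ⟨h1, h2, h3, h4⟩ := hF p (mem_coe.1 hp)
        simp only [coe_filter, Set.mem_ofPred_eq, mem_range]
        rw [h4] at h2
        exact ⟨h3, (mem_filter.1 h1).2, (mem_filter.1 h2).2⟩
      · intro p hp p' hp' h
        obtain ⟨h1, h2, h3, h4⟩ := hF p (mem_coe.1 hp)
        obtain ⟨h1', h2', h3', h4'⟩ := hF p' (mem_coe.1 hp')
        simp only at h
        apply Prod.ext h
        rw [h4, h4', h]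
    calc (c : ℝ) * (1 / Q) = (F.card : ℝ) * (1 / Q) := by rw [hc]
      _ ≤ (((range n).filter fun i => lev Q (al i) = s ∧ lev Q (be (f i)) = t).card : ℝ) *
          (1 / Q) := by
          apply mul_le_mul_of_nonneg_right _ hT0.le
          exact_mod_cast h1
      _ = ∑ i ∈ (range n).filter (fun i => lev Q (al i) = s ∧ lev Q (be (f i)) = t),
          (1 / (Q : ℝ)) := by
          rw [sum_const, nsmul_eq_mul]
      _ ≤ ∑ i ∈ (range n).filter (fun i => lev Q (al i) = s ∧ lev Q (be (f i)) = t),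
          trp (al i) (be (f i)) x := by
          apply sum_le_sum
          intro i hi
          obtain ⟨h2, h3, h4⟩ := mem_filter.1 hi
          refine le_trans hT (trp_mono x ?_ ?_)
          · rw [← h3]
            exact lev_div_le hQ (ha i)
          · rw [← h4]
            exact lev_div_le hQ (hb _)
      _ ≤ ∑ i ∈ range n, trp (al i) (be (f i)) x :=
          sum_le_sum_of_subset_of_nonneg (filter_subset _ _)
            fun i _ _ => trp_nonneg _ (ha _) (hb _)
  have g1 := gen (k + 1) _ (fun i => k - i)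
    ((lset K Q al s ×ˢ lset K Q be t).filter fun p => p.1 + p.2 = k) (by
      intro p hp
      rw [mem_filter, mem_product] at hp
      exact ⟨hp.1.1, hp.1.2, by omega, by omega⟩) rfl
  have g2 := gen k _ (fun i => k - 1 - i)
    ((lset K Q al s ×ˢ lset K Q be t).filter fun p => p.1 + p.2 + 1 = k) (by
      intro p hp
      rw [mem_filter, mem_product] at hp
      exact ⟨hp.1.1, hp.1.2, by omega, by omega⟩) rfl
  unfold GG
  have h3 : κ * K * (1 / Q) ≤ ∑ i ∈ range (k + 1), trp (al i) (be (k - i)) x +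
      ∑ i ∈ range k, trp (al i) (be (k - 1 - i)) x := by
    have := mul_le_mul_of_nonneg_right hpop hT0.le
    rw [add_mul] at this
    linarith
  calc κ / Q = 1 / (K : ℝ) * (κ * K * (1 / Q)) := by
        field_simp
    _ ≤ _ := mul_le_mul_of_nonneg_left h3 (by positivity)

/-- few pairs have an unpopular sum -/
theorem card_unpop {A B S : Finset ℕ} {K : ℕ} {κ : ℝ} (hκ : 0 ≤ κ) (hS : S ⊆ range K) (c : ℕ)
    (h : ∀ k ∈ S, (((A ×ˢ B).filter fun p => p.1 + p.2 + c = k).card : ℝ) ≤ κ * K) :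
    (((A ×ˢ B).filter fun p => p.1 + p.2 + c ∈ S).card : ℝ) ≤ κ * K ^ 2 := by
  have h1 : ((A ×ˢ B).filter fun p => p.1 + p.2 + c ∈ S).card =
      ∑ k ∈ S, ((A ×ˢ B).filter fun p => p.1 + p.2 + c = k).card := by
    rw [card_eq_sum_card_fiberwise (f := fun p => p.1 + p.2 + c) (t := S)]
    · apply sum_congr rfl
      intro k hk
      congr 1
      ext p
      simp only [mem_filter]
      constructor
      · rintro ⟨⟨h1, h2⟩, h3⟩
        exact ⟨h1, h3⟩
      · rintro ⟨h1, h3⟩
        exact ⟨⟨h1, by rw [h3]; exact hk⟩, h3⟩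
    · intro p hp
      simp only [coe_filter, Set.mem_ofPred_eq] at hp
      exact hp.2
  rw [h1]
  push_cast
  calc ∑ k ∈ S, (((A ×ˢ B).filter fun p => p.1 + p.2 + c = k).card : ℝ)
      ≤ ∑ k ∈ S, κ * K := sum_le_sum h
    _ = S.card * (κ * K) := by rw [sum_const, nsmul_eq_mul]
    _ ≤ K * (κ * K) := by
        have : (S.card : ℝ) ≤ K := by
          have := card_le_card hS
          rw [card_range] at this
          exact_mod_cast this
        gcongr
    _ = κ * K ^ 2 := by ring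

/-- the point where `∑ al - a i` is minimal -/
theorem exists_shift {K : ℕ} {al : ℕ → ℝ} {a a' ρ : ℝ} (hρ : a' < a)
    (h : ∀ j, j ≤ K → a * j - ρ ≤ ∑ i ∈ range j, al i) :
    ∃ i0, i0 ≤ K ∧ (i0 : ℝ) * (a - a') ≤ ρ ∧
      ∀ m, i0 + m ≤ K → a' * m ≤ ∑ i ∈ range m, al (i0 + i) := by
  obtain ⟨i0, hi0, hmin⟩ := exists_min_image (range (K + 1))
    (fun j => ∑ i ∈ range j, al i - a' * j) ⟨0, mem_range.2 (by omega)⟩
  have hi0K : i0 ≤ K := by
    have := mem_range.1 hi0
    omega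
  refine ⟨i0, hi0K, ?_, ?_⟩
  · have h1 := hmin 0 (mem_range.2 (by omega))
    simp only [range_zero, sum_empty, Nat.cast_zero, mul_zero, sub_zero] at h1
    have h2 := h i0 hi0K
    linarith
  · intro m hm
    have h1 := hmin (i0 + m) (mem_range.2 (by omega))
    have h2 : ∑ i ∈ range (i0 + m), al i = ∑ i ∈ range i0, al i + ∑ i ∈ range m, al (i0 + i) :=
      sum_range_add _ _ _
    rw [h2] at h1
    push_cast at h1
    linarith

/-- **Robust form of Mann's theorem for profiles.** -/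
theorem robust {a b ε : ℝ} (ha : 0 < a) (hb : 0 < b) (hε : 0 < ε) : ∃ τ : ℝ, 0 < τ ∧
    ∃ δ : ℝ, 0 < δ ∧ ∀ K : ℕ, 1 ≤ K → ∀ al be : ℕ → ℝ, (∀ i, 0 ≤ al i ∧ al i ≤ 1) →
    (∀ i, 0 ≤ be i ∧ be i ≤ 1) → (∀ j, j ≤ K → a * j - δ * K ≤ ∑ i ∈ range j, al i) →
    (∀ j, j ≤ K → b * j - δ * K ≤ ∑ i ∈ range j, be i) →
    (min 1 (a + b) - ε) * K ≤ ∑ k ∈ range K, pp K al be τ k := by
  classical
  set δ1 : ℝ := min (ε / 8) (min (a / 2) (b / 2)) with hδ1
  have hδ1pos : 0 < δ1 := lt_min (by positivity) (lt_min (by positivity) (by positivity))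
  have hδ1ε : δ1 ≤ ε / 8 := min_le_left _ _
  have hδ1a : δ1 ≤ a / 2 := le_trans (min_le_right _ _) (min_le_left _ _)
  have hδ1b : δ1 ≤ b / 2 := le_trans (min_le_right _ _) (min_le_right _ _)
  obtain ⟨Q, hQ⟩ := exists_nat_gt (32 / (ε * δ1) + 20 / ε + 1)
  have hQ1 : (1 : ℝ) < Q := by
    have h1 : 0 < 32 / (ε * δ1) := by positivity
    have h2 : 0 < 20 / ε := by positivity
    linarith
  have hQn : 1 ≤ Q := by
    have : 1 < Q := by exact_mod_cast hQ1
    omega
  have hQR : (0 : ℝ) < Q := by linarith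
  have hQa : 2 / (Q : ℝ) ≤ ε * δ1 / 16 := by
    rw [div_le_iff₀ hQR]
    have h1 : 32 / (ε * δ1) ≤ Q := by
      have h2 : 0 < 20 / ε := by positivity
      linarith
    rw [div_le_iff₀ (by positivity)] at h1
    linarith
  have hQb : 5 / (Q : ℝ) ≤ ε / 4 := by
    rw [div_le_iff₀ hQR]
    have h1 : 20 / ε ≤ Q := by
      have h2 : 0 < 32 / (ε * δ1) := by positivity
      linarith
    rw [div_le_iff₀ hε] at h1
    linarith
  obtain ⟨κ, hκ, hrem⟩ := removal (η := 1 / (2 * (Q : ℝ) ^ 3)) (by positivity)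
  refine ⟨κ / Q, by positivity, ε * δ1 / 16, by positivity, ?_⟩
  intro K hK al be hal hbe hA hB
  have hKR : (0 : ℝ) < K := by exact_mod_cast hK
  have hal0 : ∀ i, 0 ≤ al i := fun i => (hal i).1
  have hbe0 : ∀ i, 0 ≤ be i := fun i => (hbe i).1
  -- the unpopular sums
  set S : ℕ → ℕ → Finset ℕ := fun s t => (range K).filter fun k =>
    (((lset K Q al s ×ˢ lset K Q be t).filter fun p => p.1 + p.2 = k).card : ℝ) +
      (((lset K Q al s ×ˢ lset K Q be t).filter fun p => p.1 + p.2 + 1 = k).card : ℝ) < κ * K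
    with hS
  have hall : ∀ s t : ℕ, ∃ RA RB RS RA1 RB1 RS1 : Finset ℕ,
      (RA.card : ℝ) ≤ 1 / (2 * (Q : ℝ) ^ 3) * K ∧ (RB.card : ℝ) ≤ 1 / (2 * (Q : ℝ) ^ 3) * K ∧
      (RS.card : ℝ) ≤ 1 / (2 * (Q : ℝ) ^ 3) * K ∧ (RA1.card : ℝ) ≤ 1 / (2 * (Q : ℝ) ^ 3) * K ∧
      (RB1.card : ℝ) ≤ 1 / (2 * (Q : ℝ) ^ 3) * K ∧ (RS1.card : ℝ) ≤ 1 / (2 * (Q : ℝ) ^ 3) * K ∧
      (∀ i ∈ lset K Q al s, i ∉ RA → ∀ j ∈ lset K Q be t, j ∉ RB → i + j ∈ S s t →
        i + j ∈ RS) ∧
      (∀ i ∈ lset K Q al s, i ∉ RA1 → ∀ j ∈ lset K Q be t, j ∉ RB1 → i + j + 1 ∈ S s t →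
        i + j ∈ RS1) := by
    intro s t
    have hl1 : ∀ i ∈ lset K Q al s, i < K := fun i hi => mem_range.1 (mem_filter.1 hi).1
    have hl2 : ∀ i ∈ lset K Q be t, i < K := fun i hi => mem_range.1 (mem_filter.1 hi).1
    have hSK : S s t ⊆ range K := filter_subset _ _
    obtain ⟨RA, RB, RS, -, -, -, h1, h2, h3, h4⟩ := hrem K hK (lset K Q al s) (lset K Q be t)
      (S s t) hl1 hl2 (fun k hk => by have := mem_range.1 (hSK hk); omega) (by
        have := card_unpop (A := lset K Q al s) (B := lset K Q be t) (K := K) hκ.le hSK 0 (by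
          intro k hk
          have h5 := (mem_filter.1 hk).2
          have h6 : (0 : ℝ) ≤ (((lset K Q al s ×ˢ lset K Q be t).filter
            fun p => p.1 + p.2 + 1 = k).card : ℝ) := Nat.cast_nonneg _
          simp only [Nat.add_zero]
          linarith)
        simpa using this)
    obtain ⟨RA1, RB1, RS1, -, -, -, h1', h2', h3', h4'⟩ := hrem K hK (lset K Q al s)
      (lset K Q be t) ((range K).filter fun k => k + 1 ∈ S s t) hl1 hl2
      (fun k hk => by have := mem_range.1 (mem_filter.1 hk).1; omega) (by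
        have h7 := card_unpop (A := lset K Q al s) (B := lset K Q be t) (K := K) hκ.le hSK 1 (by
          intro k hk
          have h5 := (mem_filter.1 hk).2
          have h6 : (0 : ℝ) ≤ (((lset K Q al s ×ˢ lset K Q be t).filter
            fun p => p.1 + p.2 = k).card : ℝ) := Nat.cast_nonneg _
          linarith)
        refine le_trans ?_ h7
        have : ((lset K Q al s ×ˢ lset K Q be t).filter
            fun p => p.1 + p.2 ∈ (range K).filter fun k => k + 1 ∈ S s t) ⊆
            ((lset K Q al s ×ˢ lset K Q be t).filter fun p => p.1 + p.2 + 1 ∈ S s t) := by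
          intro p hp
          rw [mem_filter] at hp ⊢
          exact ⟨hp.1, (mem_filter.1 hp.2).2⟩
        exact_mod_cast card_le_card this)
    refine ⟨RA, RB, RS, RA1, RB1, RS1, h1, h2, h3, h1', h2', h3', h4, ?_⟩
    intro i hi hi' j hj hj' hij
    apply h4' i hi hi' j hj hj'
    rw [mem_filter]
    refine ⟨?_, hij⟩
    have := mem_range.1 (hSK hij)
    exact mem_range.2 (by omega)
  choose RA RB RS RA1 RB1 RS1 c1 c2 c3 c4 c5 c6 f1 f2 using hall
  set I := Icc 1 Q ×ˢ Icc 1 Q with hI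
  have hIcard : (I.card : ℝ) = (Q : ℝ) ^ 2 := by
    rw [hI, card_product, Nat.card_Icc, Nat.add_sub_cancel]
    push_cast
    ring
  have hun : ∀ (X Y : ℕ → ℕ → Finset ℕ), (∀ s t, ((X s t).card : ℝ) ≤ 1 / (2 * (Q : ℝ) ^ 3) * K) →
      (∀ s t, ((Y s t).card : ℝ) ≤ 1 / (2 * (Q : ℝ) ^ 3) * K) →
      ((I.biUnion fun st => X st.1 st.2 ∪ Y st.1 st.2).card : ℝ) ≤ K / Q := by
    intro X Y hX hY
    have h1 : ((I.biUnion fun st => X st.1 st.2 ∪ Y st.1 st.2).card : ℝ) ≤
        ∑ st ∈ I, (((X st.1 st.2 ∪ Y st.1 st.2).card : ℕ) : ℝ) := by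
      exact_mod_cast card_biUnion_le
    have h2 : ∀ st ∈ I, (((X st.1 st.2 ∪ Y st.1 st.2).card : ℕ) : ℝ) ≤
        1 / (Q : ℝ) ^ 3 * K := by
      intro st _
      have h3 : (((X st.1 st.2 ∪ Y st.1 st.2).card : ℕ) : ℝ) ≤
          ((X st.1 st.2).card : ℝ) + (Y st.1 st.2).card := by
        exact_mod_cast card_union_le _ _
      have h4 := hX st.1 st.2
      have h5 := hY st.1 st.2
      have h6 : 1 / (Q : ℝ) ^ 3 * K = 1 / (2 * (Q : ℝ) ^ 3) * K + 1 / (2 * (Q : ℝ) ^ 3) * K := by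
        field_simp
        norm_num
      linarith
    calc ((I.biUnion fun st => X st.1 st.2 ∪ Y st.1 st.2).card : ℝ)
        ≤ ∑ st ∈ I, (((X st.1 st.2 ∪ Y st.1 st.2).card : ℕ) : ℝ) := h1
      _ ≤ ∑ st ∈ I, 1 / (Q : ℝ) ^ 3 * K := sum_le_sum h2
      _ = (Q : ℝ) ^ 2 * (1 / (Q : ℝ) ^ 3 * K) := by rw [sum_const, nsmul_eq_mul, hIcard]
      _ = K / Q := by field_simp
  set UA := I.biUnion fun st => RA st.1 st.2 ∪ RA1 st.1 st.2 with hUA
  set UB := I.biUnion fun st => RB st.1 st.2 ∪ RB1 st.1 st.2 with hUB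
  set E := I.biUnion fun st => RS st.1 st.2 ∪ (RS1 st.1 st.2).image (fun k => k + 1) with hE
  have hUAc : (UA.card : ℝ) ≤ K / Q := hun RA RA1 c1 c4
  have hUBc : (UB.card : ℝ) ≤ K / Q := hun RB RB1 c2 c5
  have hEc : (E.card : ℝ) ≤ K / Q := by
    apply hun RS (fun s t => (RS1 s t).image fun k => k + 1) c3
    intro s t
    refine le_trans ?_ (c6 s t)
    exact_mod_cast card_image_le
  -- the modified profiles
  have hmod : ∀ (c : ℝ) (f : ℕ → ℝ) (U : Finset ℕ), (∀ i, 0 ≤ f i ∧ f i ≤ 1) →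
      (U.card : ℝ) ≤ K / Q → (∀ j, j ≤ K → c * j - ε * δ1 / 16 * K ≤ ∑ i ∈ range j, f i) →
      ∀ j, j ≤ K → c * j - (ε * δ1 / 16 + 2 / Q) * K ≤
        ∑ i ∈ range j, (if i ∈ U ∨ lev Q (f i) = 0 then 0 else f i) := by
    intro c f U hf hU h j hj
    have h1 := h j hj
    have h2 : ∑ i ∈ range j, f i - ∑ i ∈ range j, (if i ∈ U ∨ lev Q (f i) = 0 then 0 else f i) ≤
        2 / Q * K := by
      rw [← sum_sub_distrib]
      calc ∑ i ∈ range j, (f i - if i ∈ U ∨ lev Q (f i) = 0 then 0 else f i)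
          ≤ ∑ i ∈ range j, ((if i ∈ U then 1 else 0) + 1 / (Q : ℝ)) := by
            apply sum_le_sum
            intro i _
            by_cases hi : i ∈ U
            · simp only [hi, true_or, if_true]
              have := (hf i).2
              have : 0 < 1 / (Q : ℝ) := by positivity
              linarith
            · by_cases hl : lev Q (f i) = 0
              · simp only [hi, hl, or_true, if_true, if_false]
                have := lt_lev_div hQn (f i)
                rw [hl] at this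
                simp at this
                simpa using this
              · simp only [hi, hl, or_self, if_false]
                have : 0 < 1 / (Q : ℝ) := by positivity
                linarith
        _ = ((range j).filter (fun i => i ∈ U)).card + j * (1 / (Q : ℝ)) := by
            rw [sum_add_distrib, sum_const, card_range, nsmul_eq_mul, ← sum_filter, sum_const,
              nsmul_eq_mul, mul_one]
        _ ≤ K / Q + K * (1 / Q) := by
            have h3 : (((range j).filter (fun i => i ∈ U)).card : ℝ) ≤ U.card := by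
              have : (range j).filter (fun i => i ∈ U) ⊆ U := by
                intro i hi
                exact (mem_filter.1 hi).2
              exact_mod_cast card_le_card this
            have h4 : (j : ℝ) ≤ K := by exact_mod_cast hj
            have h5 : (j : ℝ) * (1 / Q) ≤ K * (1 / Q) := by gcongr
            linarith
        _ = 2 / Q * K := by ring
    have h6 : (ε * δ1 / 16 + 2 / Q) * (K : ℝ) = ε * δ1 / 16 * K + 2 / Q * K := by ring
    rw [h6]
    linarith
  set al' : ℕ → ℝ := fun i => if i ∈ UA ∨ lev Q (al i) = 0 then 0 else al i with hal'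
  set be' : ℕ → ℝ := fun i => if i ∈ UB ∨ lev Q (be i) = 0 then 0 else be i with hbe'
  have hA' := hmod a al UA hal hUAc hA
  have hB' := hmod b be UB hbe hUBc hB
  obtain ⟨i0, hi0, hi0', hi0''⟩ := exists_shift (a' := a - δ1) (by linarith) hA'
  obtain ⟨j0, hj0, hj0', hj0''⟩ := exists_shift (a' := b - δ1) (by linarith) hB'
  have hal'01 : ∀ i, 0 ≤ al' i ∧ al' i ≤ 1 := by
    intro i
    simp only [hal']
    split_ifs
    · exact ⟨le_rfl, zero_le_one⟩
    · exact hal i
  have hbe'01 : ∀ i, 0 ≤ be' i ∧ be' i ≤ 1 := by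
    intro i
    simp only [hbe']
    split_ifs
    · exact ⟨le_rfl, zero_le_one⟩
    · exact hbe i
  have hposA : ∀ i, 0 < al' i → i ∉ UA ∧ 1 ≤ lev Q (al i) ∧ al' i = al i := by
    intro i hi
    simp only [hal'] at hi ⊢
    split_ifs at hi ⊢ with h
    · exact absurd hi (lt_irrefl _)
    · rw [not_or] at h
      exact ⟨h.1, by omega, rfl⟩
  have hposB : ∀ i, 0 < be' i → i ∉ UB ∧ 1 ≤ lev Q (be i) ∧ be' i = be i := by
    intro i hi
    simp only [hbe'] at hi ⊢
    split_ifs at hi ⊢ with h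
    · exact absurd hi (lt_irrefl _)
    · rw [not_or] at h
      exact ⟨h.1, by omega, rfl⟩
  -- the gamma function
  set P : ℕ → ℝ := fun k => pp K al be (κ / Q) k + 4 / Q + (if k ∈ E then 1 else 0) with hP
  have hpp0 : ∀ k, 0 ≤ pp K al be (κ / Q) k := fun k => pp_nonneg hal0 hbe0 (by positivity) k
  have hP0 : ∀ k, 0 ≤ P k := by
    intro k
    have h1 := hpp0 k
    have h2 : 0 < 4 / (Q : ℝ) := by positivity
    simp only [hP]
    split_ifs <;> linarith
  have hkey : ∀ i j k : ℕ, 0 < al' i → 0 < be' j → k < K → (k = i + j ∨ k = i + j + 1) →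
      min 1 (al' i + be' j) ≤ P k := by
    intro i j k hi hj hk hor
    obtain ⟨hi1, hi2, hi3⟩ := hposA i hi
    obtain ⟨hj1, hj2, hj3⟩ := hposB j hj
    have hiK : i < K := by omega
    have hjK : j < K := by omega
    set s := lev Q (al i) with hs
    set t := lev Q (be j) with ht
    have hsQ : s ≤ Q := lev_le (hal i).2
    have htQ : t ≤ Q := lev_le (hbe j).2
    have hiL : i ∈ lset K Q al s := mem_filter.2 ⟨mem_range.2 hiK, rfl⟩
    have hjL : j ∈ lset K Q be t := mem_filter.2 ⟨mem_range.2 hjK, rfl⟩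
    have hst : (s, t) ∈ I := by
      rw [hI, mem_product, mem_Icc, mem_Icc]
      exact ⟨⟨hi2, hsQ⟩, hj2, htQ⟩
    have nA : i ∉ RA s t ∧ i ∉ RA1 s t := by
      constructor
      · intro hc
        exact hi1 (mem_biUnion.2 ⟨(s, t), hst, mem_union_left _ hc⟩)
      · intro hc
        exact hi1 (mem_biUnion.2 ⟨(s, t), hst, mem_union_right _ hc⟩)
    have nB : j ∉ RB s t ∧ j ∉ RB1 s t := by
      constructor
      · intro hc
        exact hj1 (mem_biUnion.2 ⟨(s, t), hst, mem_union_left _ hc⟩)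
      · intro hc
        exact hj1 (mem_biUnion.2 ⟨(s, t), hst, mem_union_right _ hc⟩)
    have h4Q : 0 < 4 / (Q : ℝ) := by positivity
    by_cases hkS : k ∈ S s t
    · have hkE : k ∈ E := by
        rcases hor with rfl | rfl
        · have := f1 s t i hiL nA.1 j hjL nB.1 hkS
          exact mem_biUnion.2 ⟨(s, t), hst, mem_union_left _ this⟩
        · have := f2 s t i hiL nA.2 j hjL nB.2 hkS
          exact mem_biUnion.2 ⟨(s, t), hst, mem_union_right _ (mem_image_of_mem _ this)⟩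
      have h1 := hpp0 k
      simp only [hP, hkE, if_true]
      have := min_le_left 1 (al' i + be' j)
      linarith
    · have hpop : κ * K ≤ (((lset K Q al s ×ˢ lset K Q be t).filter
          fun p => p.1 + p.2 = k).card : ℝ) + (((lset K Q al s ×ˢ lset K Q be t).filter
          fun p => p.1 + p.2 + 1 = k).card : ℝ) := by
        by_contra hc
        push Not at hc
        exact hkS (mem_filter.2 ⟨mem_range.2 hk, hc⟩)
      have h1 : 2 * min (1 / 2) (((s : ℝ) + t) / (2 * Q) - 1 / Q) ≤ pp K al be (κ / Q) k := by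
        apply pp_ge hal0 hbe0 (by positivity) k (min_le_left _ _)
        intro x hx
        exact GG_ge hK hQn hal0 hbe0 hi2 hj2 hpop (le_trans hx (min_le_right _ _))
      have h2 : min 1 (al' i + be' j) ≤
          2 * min (1 / 2) (((s : ℝ) + t) / (2 * Q) - 1 / Q) + 4 / Q := by
        have h3 := lt_lev_div hQn (al i)
        have h4 := lt_lev_div hQn (be j)
        rw [← hs] at h3
        rw [← ht] at h4
        rw [hi3, hj3]
        have e1 : 2 * ((((s : ℝ) + t) / (2 * Q)) - 1 / Q) + 4 / Q =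
            ((s : ℝ) + 1) / Q + ((t : ℝ) + 1) / Q := by
          field_simp
          ring
        rcases le_total (1 / 2 : ℝ) (((s : ℝ) + t) / (2 * Q) - 1 / Q) with h5 | h5
        · rw [min_eq_left h5]
          have := min_le_left 1 (al i + be j)
          linarith
        · rw [min_eq_right h5, e1]
          have := min_le_right 1 (al i + be j)
          linarith
      simp only [hP]
      split_ifs <;> linarith
  -- Mann's theorem
  set L := K - (i0 + j0) with hL
  have hmann := mann_cells (K := L) (a := a - δ1) (b := b - δ1) (by linarith) (by linarith)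
    (α := fun i => al' (i0 + i)) (β := fun i => be' (j0 + i)) (γ := fun k => P (i0 + j0 + k))
    (fun i => (hal'01 _).1) (fun i => (hal'01 _).2) (fun i => (hbe'01 _).1)
    (fun i => (hbe'01 _).2) (fun k => hP0 _)
    (fun m hm => hi0'' m (by omega)) (fun m hm => hj0'' m (by omega))
    (by
      intro i j hi hj hij
      exact hkey _ _ _ hi hj (by omega) (Or.inl (by omega)))
    (by
      intro i j hi hj hij
      exact hkey _ _ _ hi hj (by omega) (Or.inr (by omega)))
  -- the upper bound for the sum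
  have hup : ∑ k ∈ range L, P (i0 + j0 + k) ≤
      ∑ k ∈ range K, pp K al be (κ / Q) k + 5 / Q * K := by
    have h1 : ∑ k ∈ range L, P (i0 + j0 + k) ≤ ∑ k ∈ range K, P k := by
      by_cases hle : i0 + j0 ≤ K
      · have h2 : ∑ k ∈ range K, P k = ∑ k ∈ range (i0 + j0), P k +
            ∑ k ∈ range L, P (i0 + j0 + k) := by
          rw [← sum_range_add]
          congr 2
          omega
        rw [h2]
        have := sum_nonneg (s := range (i0 + j0)) (f := P) fun k _ => hP0 k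
        linarith
      · have : L = 0 := by omega
        rw [this, range_zero, sum_empty]
        exact sum_nonneg fun k _ => hP0 k
    refine le_trans h1 ?_
    simp only [hP]
    rw [sum_add_distrib, sum_add_distrib, sum_const, card_range, nsmul_eq_mul, ← sum_filter,
      sum_const, nsmul_eq_mul, mul_one]
    have h3 : (((range K).filter (fun i => i ∈ E)).card : ℝ) ≤ E.card := by
      have : (range K).filter (fun i => i ∈ E) ⊆ E := by
        intro i hi
        exact (mem_filter.1 hi).2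
      exact_mod_cast card_le_card this
    have h4 : (K : ℝ) * (4 / Q) + K / Q = 5 / Q * K := by ring
    linarith
  have hρ : (ε * δ1 / 16 + 2 / (Q : ℝ)) * K ≤ ε * δ1 / 8 * K := by
    apply mul_le_mul_of_nonneg_right _ hKR.le
    linarith
  have hi1 : (i0 : ℝ) ≤ ε / 8 * K := by
    have h1 : (i0 : ℝ) * δ1 ≤ (ε / 8 * K) * δ1 := by
      have : a - (a - δ1) = δ1 := by ring
      rw [this] at hi0'
      calc (i0 : ℝ) * δ1 ≤ _ := hi0'
        _ ≤ ε * δ1 / 8 * K := hρ
        _ = (ε / 8 * K) * δ1 := by ring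
    exact le_of_mul_le_mul_right h1 hδ1pos
  have hj1 : (j0 : ℝ) ≤ ε / 8 * K := by
    have h1 : (j0 : ℝ) * δ1 ≤ (ε / 8 * K) * δ1 := by
      have : b - (b - δ1) = δ1 := by ring
      rw [this] at hj0'
      calc (j0 : ℝ) * δ1 ≤ _ := hj0'
        _ ≤ ε * δ1 / 8 * K := hρ
        _ = (ε / 8 * K) * δ1 := by ring
    exact le_of_mul_le_mul_right h1 hδ1pos
  have hLR : (K : ℝ) - (i0 + j0) ≤ L := by
    have : K ≤ L + (i0 + j0) := by omega
    have h1 : (K : ℝ) ≤ L + (i0 + j0) := by exact_mod_cast this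
    linarith
  set m1 := min 1 (a - δ1 + (b - δ1)) with hm1
  have hm1a : min 1 (a + b) - 2 * δ1 ≤ m1 := by
    apply le_min
    · linarith [min_le_left 1 (a + b)]
    · linarith [min_le_right 1 (a + b)]
  have hm1b : 0 ≤ m1 := le_min zero_le_one (by linarith)
  have hm1c : m1 ≤ 1 := min_le_left _ _
  have h1 : m1 * ((K : ℝ) - (i0 + j0)) ≤ m1 * L := mul_le_mul_of_nonneg_left hLR hm1b
  have h2 : m1 * ((i0 : ℝ) + j0) ≤ 1 * (i0 + j0) := by
    apply mul_le_mul_of_nonneg_right hm1c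
    positivity
  have h3 : (min 1 (a + b) - 2 * δ1) * K ≤ m1 * K := mul_le_mul_of_nonneg_right hm1a hKR.le
  have h4 : 5 / (Q : ℝ) * K ≤ ε / 4 * K := mul_le_mul_of_nonneg_right hQb hKR.le
  have h5 : δ1 * K ≤ ε / 8 * K := mul_le_mul_of_nonneg_right hδ1ε hKR.le
  have h6 : (min 1 (a + b) - ε) * (K : ℝ) = (min 1 (a + b) - 2 * δ1) * K + 2 * (δ1 * K) - ε * K := by
    ring
  have h7 : m1 * ((K : ℝ) - (i0 + j0)) = m1 * K - m1 * (i0 + j0) := by ring
  rw [h6]
  rw [h7] at h1
  nlinarith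

end Pool.Agent.Lib.MP_629a14_nt.Mn
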